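import Mathlib

/-!
# A Suslinian compactum: the combinatorial cells
-/

set_option autoImplicit false

namespace Pool.Agent.K7.H82.SU

open Finset

/-- The number of vertices of a crossing walk at level `m`. -/
def L : ℕ → ℕ
  | 0 => 1
  | m + 1 => (∑ j : Fin (m + 1), (if j.1 = 0 then 1 else 6 * L (j.1 - 1)) * L (m - j.1)) + 3 * L m
termination_by m => m
decreasing_by
  all_goals first
    | (have := j.2; omega)
    | omega

/-- The number of cells in the chain of a word of length `j`. -/
def K : ℕ → ℕ
  | 0 => 0
  | 1 => 1
  | j + 2 => 6 * L j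

theorem L_succ (m : ℕ) : L (m + 1) = ∑ j ∈ range (m + 1), K (j + 1) * L (m - j) + 3 * L m := by
  rw [L, Fin.sum_univ_eq_sum_range (fun j => (if j = 0 then 1 else 6 * L (j - 1)) * L (m - j))]
  congr 1
  refine Finset.sum_congr rfl fun j _ => ?_
  cases j with
  | zero => simp [K]
  | succ j => simp [K]

theorem L_zero : L 0 = 1 := by rw [L]

theorem L_pos (m : ℕ) : 0 < L m := by
  induction m with
  | zero => rw [L_zero]; exact one_pos
  | succ m ih => rw [L_succ]; positivity

theorem K_pos (j : ℕ) : 0 < K (j + 1) := by
  cases j with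
  | zero => simp [K]
  | succ j => have := L_pos j; simp [K]; omega

/-- Points of the index set: infinite binary sequences. -/
abbrev X := ℕ → Bool

/-- A step of an address: the cell `T t c` or the cell `R s k`. -/
inductive Step
  | T (t : Fin 3) (c : Bool)
  | R (s : List Bool) (k : ℕ)
  deriving DecidableEq

open Step

/-- Addresses. -/
abbrev V := List Step

/-- The weight of a step. -/
def wt : Step → ℕ
  | T _ _ => 1
  | R s _ => s.length

/-- Valid steps. -/
def Val : Step → Prop
  | T _ _ => True
  | R s k => k < K s.length

theorem Val.pos {st : Step} (h : Val st) : 1 ≤ wt st := by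
  cases st with
  | T t c => exact le_rfl
  | R s k =>
    simp only [Val] at h
    simp only [wt]
    cases hs : s.length with
    | zero => rw [hs] at h; simp [K] at h
    | succ n => omega

/-- The tail. -/
def tl (x : X) : X := fun i => x (i + 1)

/-- Put a digit in front. -/
def cn (b : Bool) (x : X) : X := fun i => match i with
  | 0 => b
  | i + 1 => x i

@[simp] theorem cn_zero (b : Bool) (x : X) : cn b x 0 = b := rfl
@[simp] theorem cn_succ (b : Bool) (x : X) (i : ℕ) : cn b x (i + 1) = x i := rfl
@[simp] theorem tl_cn (b : Bool) (x : X) : tl (cn b x) = x := rfl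
@[simp] theorem tl_apply (x : X) (i : ℕ) : tl x i = x (i + 1) := rfl
theorem cn_tl (x : X) : cn (x 0) (tl x) = x := by
  funext i
  cases i <;> rfl

/-- Put a word in front. -/
def app (s : List Bool) (y : X) : X := fun i => if h : i < s.length then s[i] else y (i - s.length)

/-- The word of the first `n` digits. -/
def pre (n : ℕ) (x : X) : List Bool := (List.range n).map x

/-- The shift. -/
def sh (n : ℕ) (x : X) : X := fun i => x (i + n)

@[simp] theorem length_pre (n : ℕ) (x : X) : (pre n x).length = n := by simp [pre]

theorem pre_succ (n : ℕ) (x : X) : pre (n + 1) x = pre n x ++ [sh n x 0] := by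
  simp [pre, List.range_succ, sh]

theorem app_pre (n : ℕ) (x : X) : app (pre n x) (sh n x) = x := by
  funext i
  unfold app
  split_ifs with h
  · simp [pre]
  · simp only [length_pre] at h ⊢
    simp only [sh]
    congr 1
    omega

theorem app_snoc (s : List Bool) (y : X) : app (s ++ [y 0]) (tl y) = app s y := by
  funext i
  unfold app
  by_cases h1 : i < s.length
  · have h2 : i < (s ++ [y 0]).length := by simp; omega
    rw [dif_pos h1, dif_pos h2, List.getElem_append_left h1]
  · rw [dif_neg h1]
    by_cases h3 : i = s.length
    · subst h3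
      simp
    · have h2 : ¬ i < (s ++ [y 0]).length := by simp; omega
      rw [dif_neg h2, tl_apply]
      congr 1
      simp
      omega

/-- The index of the whole cell which has local index `y` in the cell `st`. -/
def inv : Step → X → X
  | R s _, y => app s y
  | T 0 c, y => cn (y 0) (cn c (tl y))
  | T 1 c, y => cn (y 0) (cn (xor c (y 0)) (tl y))
  | T 2 c, y => cn c y

/-- Entrances. -/
def A : ℕ → X → V
  | 0, _ => []
  | r + 1, x => R [x 0] 0 :: A r (tl x)

/-- Exits. -/
def B : ℕ → X → V
  | 0, _ => []
  | r + 1, x => T 2 (x 0) :: B r (tl x)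

/-- Consecutive cells at level `m`, with the local indices. -/
inductive Nxt : ℕ → Step → X → Step → X → Prop
  | c1 {m : ℕ} {s : List Bool} {k : ℕ} (y : X) (h : s.length ≤ m) (hk : k + 1 < K s.length) :
      Nxt m (R s k) y (R s (k + 1)) y
  | c2 {m : ℕ} {s : List Bool} {k : ℕ} (y : X) (h : s.length + 1 ≤ m) (hk : k + 1 = K s.length) :
      Nxt m (R s k) y (R (s ++ [y 0]) 0) (tl y)
  | c3 {m : ℕ} {s : List Bool} {k : ℕ} (y : X) (h : s.length = m) (hk : k + 1 = K s.length) :
      Nxt m (R s k) y (T 0 (app s y 1)) (cn (app s y 0) (tl (tl (app s y))))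
  | c4 {m : ℕ} (hm : 1 ≤ m) (c : Bool) (y : X) : Nxt m (T 0 c) y (T 1 (xor c (y 0))) y
  | c5 {m : ℕ} (hm : 1 ≤ m) (c : Bool) (y : X) :
      Nxt m (T 1 c) y (T 2 (y 0)) (cn (xor c (y 0)) (tl y))

/-- Consecutive vertices at level `m`. -/
inductive Nx : ℕ → V → V → Prop
  | cell {m r : ℕ} {st : Step} {u v : V} (hv : Val st) (hr : wt st + r = m) (h : Nx r u v) :
      Nx m (st :: u) (st :: v)
  | port {m r r' : ℕ} {st st' : Step} {y y' : X} (h : Nxt m st y st' y') (hr : wt st + r = m)
      (hr' : wt st' + r' = m) : Nx m (st :: B r y) (st' :: A r' y')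

/-- Vertices at level `m`. -/
inductive Mem : ℕ → V → Prop
  | nil : Mem 0 []
  | cons {m r : ℕ} {st : Step} {v : V} (hv : Val st) (hr : wt st + r = m) (h : Mem r v) :
      Mem m (st :: v)

/-- Vertices at level `m` on the continuum with index `x`. -/
inductive InG : ℕ → X → V → Prop
  | nil (x : X) : InG 0 x []
  | cons {m r : ℕ} {st : Step} {y : X} {v : V} (hv : Val st) (hr : wt st + r = m)
      (h : InG r y v) : InG m (inv st y) (st :: v)

theorem InG.mem {m : ℕ} {x : X} {v : V} (h : InG m x v) : Mem m v := by
  induction h with
  | nil => exact Mem.nil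
  | cons hv hr _ ih => exact Mem.cons hv hr ih

theorem Nxt.val {m : ℕ} {st st' : Step} {y y' : X} (h : Nxt m st y st' y') :
    Val st ∧ Val st' ∧ wt st ≤ m ∧ wt st' ≤ m := by
  cases h with
  | c1 y h hk => exact ⟨by simp only [Val]; omega, hk, h, h⟩
  | c2 y h hk =>
    refine ⟨by simp only [Val]; omega, ?_, by simp only [wt]; omega, by simp [wt]; omega⟩
    simp only [Val, List.length_append, List.length_singleton]
    exact K_pos _
  | @c3 s k y h hk =>
    refine ⟨by simp only [Val]; omega, trivial, by simp only [wt]; omega, ?_⟩
    simp only [wt]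
    cases hs : s.length with
    | zero => rw [hs] at hk; simp [K] at hk
    | succ n => omega
  | c4 hm c y => exact ⟨trivial, trivial, hm, hm⟩
  | c5 hm c y => exact ⟨trivial, trivial, hm, hm⟩

theorem Nxt.inv_eq {m : ℕ} {st st' : Step} {y y' : X} (h : Nxt m st y st' y') :
    inv st y = inv st' y' := by
  cases h with
  | c1 y h hk => rfl
  | c2 y h hk => exact (app_snoc _ _).symm
  | c3 y h hk =>
    funext i
    simp only [inv]
    match i with
    | 0 => rfl
    | 1 => rfl
    | i + 2 => rfl
  | c4 hm c y =>
    funext i
    simp only [inv]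
    match i with
    | 0 => rfl
    | 1 =>
      simp
    | i + 2 => rfl
  | c5 hm c y => rfl

theorem Nxt.ne {m : ℕ} {st st' : Step} {y y' : X} (h : Nxt m st y st' y') : st ≠ st' := by
  cases h with
  | c1 y h hk => simp
  | c2 y h hk => simp
  | c3 y h hk => simp
  | c4 hm c y => simp
  | c5 hm c y => simp

theorem mem_A (r : ℕ) (x : X) : Mem r (A r x) := by
  induction r generalizing x with
  | zero => exact Mem.nil
  | succ r ih => exact Mem.cons (by simp [Val, K]) (by simp [wt]; omega) (ih _)

theorem mem_B (r : ℕ) (x : X) : Mem r (B r x) := by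
  induction r generalizing x with
  | zero => exact Mem.nil
  | succ r ih => exact Mem.cons trivial (by simp [wt]; omega) (ih _)

theorem inG_A (r : ℕ) (x : X) : InG r x (A r x) := by
  induction r generalizing x with
  | zero => exact InG.nil _
  | succ r ih =>
    have h := InG.cons (m := r + 1) (st := R [x 0] 0) (by simp [Val, K]) (by simp [wt]; omega) (ih (tl x))
    have h2 : inv (R [x 0] 0) (tl x) = x := by
      have := app_snoc [] x
      simp only [List.nil_append] at this
      simp only [inv]
      rw [this]
      funext i
      simp [app]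
    rwa [h2] at h

theorem inG_B (r : ℕ) (x : X) : InG r x (B r x) := by
  induction r generalizing x with
  | zero => exact InG.nil _
  | succ r ih =>
    have h := InG.cons (m := r + 1) (st := T 2 (x 0)) trivial (by simp [wt]; omega) (ih (tl x))
    have h2 : inv (T 2 (x 0)) (tl x) = x := by
      simp only [inv]
      exact cn_tl x
    rwa [h2] at h

theorem Nx.mem {m : ℕ} {u v : V} (h : Nx m u v) : Mem m u ∧ Mem m v := by
  induction h with
  | cell hv hr _ ih => exact ⟨Mem.cons hv hr ih.1, Mem.cons hv hr ih.2⟩
  | port h hr hr' =>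
    obtain ⟨h1, h2, -, -⟩ := h.val
    exact ⟨Mem.cons h1 hr (mem_B _ _), Mem.cons h2 hr' (mem_A _ _)⟩

theorem Mem.zero {v : V} (h : Mem 0 v) : v = [] := by
  cases h with
  | nil => rfl
  | cons hv hr h =>
    have := hv.pos
    omega

theorem Mem.ne_nil {m : ℕ} {v : V} (h : Mem (m + 1) v) : v ≠ [] := by
  cases h with
  | cons hv hr h => simp

theorem Mem.nil_iff {m : ℕ} (h : Mem m []) : m = 0 := by
  cases h with
  | nil => rfl

/-- The level of an address. -/
def lev (v : V) : ℕ := (v.map wt).sum

theorem Mem.lev {m : ℕ} {v : V} (h : Mem m v) : lev v = m := by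
  induction h with
  | nil => rfl
  | cons hv hr _ ih =>
    simp only [SU.lev, List.map_cons, List.sum_cons] at ih ⊢
    omega

/-! ### The grading -/

/-- The position of the first vertex of a cell. -/
def off (m : ℕ) : Step → ℕ
  | R s k => ∑ j ∈ range (s.length - 1), K (j + 1) * L (m - (j + 1)) + k * L (m - s.length)
  | T t _ => ∑ j ∈ range m, K (j + 1) * L (m - (j + 1)) + t.1 * L (m - 1)

/-- The position of a vertex. -/
def f : ℕ → V → ℕ
  | _, [] => 0
  | m, st :: v => off m st + f (m - wt st) v

theorem f_A (r : ℕ) (y : X) : f r (A r y) = 0 := by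
  induction r generalizing y with
  | zero => rfl
  | succ r ih =>
    have : r + 1 - 1 = r := rfl
    simp [A, f, off, wt, ih]

theorem f_B (r : ℕ) (y : X) : f r (B r y) + 1 = L r := by
  induction r generalizing y with
  | zero => rw [L_zero]; rfl
  | succ r ih =>
    have h1 := ih (tl y)
    simp only [B, f, off, wt]
    rw [L_succ]
    have h2 : ∑ j ∈ range (r + 1), K (j + 1) * L (r + 1 - (j + 1)) =
        ∑ j ∈ range (r + 1), K (j + 1) * L (r - j) :=
      Finset.sum_congr rfl fun j _ => by rw [Nat.add_sub_add_right]
    rw [h2]
    have h3 : ((2 : Fin 3) : ℕ) = 2 := rfl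
    rw [h3, Nat.add_sub_cancel]
    omega

theorem f_Nx {m : ℕ} {u v : V} (h : Nx m u v) : f m v = f m u + 1 := by
  induction h with
  | @cell m r st u v hv hr _ ih =>
    have : m - wt st = r := by omega
    simp only [f, this, ih]
    omega
  | @port m r r' st st' y y' h hr hr' =>
    have h1 : m - wt st = r := by omega
    have h2 : m - wt st' = r' := by omega
    simp only [f, h1, h2, f_A]
    have h3 := f_B r y
    have h4 : off m st' = off m st + L r := by
      cases h with
      | @c1 s k y h hk =>
        simp only [wt] at h1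
        simp only [off, h1]
        ring
      | @c2 s k y h hk =>
        simp only [wt] at h1
        simp only [off, h1, List.length_append, List.length_singleton, zero_mul,
          Nat.add_sub_cancel, add_zero]
        have hs : 1 ≤ s.length := by
          by_contra hcon
          have : s.length = 0 := by omega
          rw [this] at hk
          simp [K] at hk
        obtain ⟨n, hn⟩ : ∃ n, s.length = n + 1 := ⟨s.length - 1, by omega⟩
        rw [hn] at h1 hk ⊢
        rw [Finset.sum_range_succ, h1, ← hk, Nat.add_sub_cancel]
        ring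
      | @c3 s k y h hk =>
        simp only [wt] at h1
        have hs : 1 ≤ s.length := by
          by_contra hcon
          have : s.length = 0 := by omega
          rw [this] at hk
          simp [K] at hk
        obtain ⟨n, hn⟩ : ∃ n, s.length = n + 1 := ⟨s.length - 1, by omega⟩
        have h5 : m = n + 1 := by omega
        subst h5
        simp only [off, hn]
        rw [Finset.sum_range_succ]
        have h6 : r = 0 := by omega
        subst h6
        rw [hn] at hk
        rw [← hk, Nat.add_sub_cancel]
        simp
        ring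
      | c4 hm c y =>
        simp only [wt] at h1
        simp only [off, h1]
        simp
      | c5 hm c y =>
        simp only [wt] at h1
        simp only [off, h1]
        have h3 : ((2 : Fin 3) : ℕ) = 2 := rfl
        have h3' : ((1 : Fin 3) : ℕ) = 1 := rfl
        rw [h3, h3']
        ring
    omega

end Pool.Agent.K7.H82.SU
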