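import Pool.Agent.K7.H82.SU.Space

/-!
# Continua of the space
-/

set_option autoImplicit false

namespace Pool.Agent.K7.H82.SU

open Step Filter Topology
open scoped NNReal ENNReal

attribute [local instance] topV discV topPt compactPt

section General

variable {Y : Type} [MetricSpace Y]

/-- Steps of length less than `ε` in `C`. -/
def EStep (C : Set Y) (ε : ℝ) (u v : Y) : Prop := u ∈ C ∧ v ∈ C ∧ dist u v < ε

theorem chain_of_preconnected {C : Set Y} (hC : IsPreconnected C) {a b : Y} (ha : a ∈ C)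
    (hb : b ∈ C) {ε : ℝ} (hε : 0 < ε) : Relation.ReflTransGen (EStep C ε) a b := by
  by_contra hcon
  set S : Set Y := {z | z ∈ C ∧ Relation.ReflTransGen (EStep C ε) a z} with hS
  set u : Set Y := ⋃ z ∈ S, Metric.ball z (ε / 2) with hu
  set v : Set Y := ⋃ z ∈ C \ S, Metric.ball z (ε / 2) with hv
  have haS : a ∈ S := ⟨ha, Relation.ReflTransGen.refl⟩
  have hbS : b ∈ C \ S := ⟨hb, fun h => hcon h.2⟩
  have hu1 : ∀ z ∈ S, z ∈ u := fun z hz => Set.mem_biUnion hz (Metric.mem_ball_self (by positivity))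
  have hv1 : ∀ z ∈ C \ S, z ∈ v :=
    fun z hz => Set.mem_biUnion hz (Metric.mem_ball_self (by positivity))
  obtain ⟨z, hz, hzu, hzv⟩ := hC u v (isOpen_biUnion fun _ _ => Metric.isOpen_ball)
    (isOpen_biUnion fun _ _ => Metric.isOpen_ball) (fun z hz => by
      by_cases h : z ∈ S
      · exact Or.inl (hu1 z h)
      · exact Or.inr (hv1 z ⟨hz, h⟩)) ⟨a, ha, hu1 a haS⟩ ⟨b, hb, hv1 b hbS⟩
  simp only [hu, hv, Set.mem_iUnion, exists_prop, Metric.mem_ball] at hzu hzv
  obtain ⟨z1, hz1, h1⟩ := hzu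
  obtain ⟨z2, hz2, h2⟩ := hzv
  refine hz2.2 ⟨hz2.1, hz1.2.tail ⟨hz1.1, hz2.1, ?_⟩⟩
  calc dist z1 z2 ≤ dist z1 z + dist z z2 := dist_triangle _ _ _
    _ < ε := by rw [dist_comm z1 z]; linarith

theorem preconnected_of_chain {C : Set Y} (hC : IsCompact C)
    (h : ∀ ε : ℝ, 0 < ε → ∀ a ∈ C, ∀ b ∈ C, Relation.ReflTransGen (EStep C ε) a b) :
    IsPreconnected C := by
  rw [isPreconnected_closed_iff]
  intro t t' ht ht' hsub ⟨a, ha, hat⟩ ⟨b, hb, hbt⟩
  by_contra hcon
  have hdisj : Disjoint (C ∩ t) (C ∩ t') := by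
    rw [Set.disjoint_left]
    intro z hz hz'
    exact hcon ⟨z, hz.1, hz.2, hz'.2⟩
  obtain ⟨r, hr, hlt⟩ := Metric.exists_pos_forall_lt_edist (hC.inter_right ht)
    (hC.inter_right ht').isClosed hdisj
  have hbt' : ¬ b ∈ t := fun hbt2 => Set.disjoint_left.1 hdisj ⟨hb, hbt2⟩ ⟨hb, hbt⟩
  obtain ⟨c, d, ⟨hc, hd, hcd⟩, hct, hdt⟩ := exists_exit (P := fun z => z ∈ t)
    (h r (by exact_mod_cast hr) a ha b hb) hat hbt'
  have h1 := hlt c ⟨hc, hct⟩ d ⟨hd, (hsub hd).resolve_left hdt⟩
  rw [edist_dist, ← ENNReal.ofReal_coe_nnreal] at h1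
  have h3 := (ENNReal.ofReal_lt_ofReal_iff_of_nonneg (NNReal.coe_nonneg r)).1 h1
  linarith

end General

/-! ### Traces of connected sets -/

theorem le_mu (i : ℕ) : i ≤ mu i := by
  refine le_trans ?_ (mu_ge i)
  exact Nat.le_mul_self i

theorem TC_preimage {C : Set KS} (hC : IsPreconnected C) : TC (mk ⁻¹' C) := by
  intro M p hp q hq
  have h := chain_of_preconnected hC (a := mk p) (b := mk q) hp hq
    (ε := (1 / 2) ^ (M + 1)) (by positivity)
  have key : ∀ z, Relation.ReflTransGen (EStep C ((1 / 2) ^ (M + 1))) (mk p) z →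
      ∀ q', mk q' = z → q' ∈ mk ⁻¹' C → Conn M (Tr (mk ⁻¹' C) M) (p.1 M) (q'.1 M) := by
    intro z hz
    induction hz with
    | refl =>
      intro q' h1 hq'
      have h2 : EP (mu M) p q' := EP_of_dist (by rw [h1, dist_self]; positivity)
      exact Conn.of_E (h2.mono (le_mu M)) (mem_Tr hp M) (mem_Tr hq' M)
    | @tail b c _ hbc ih =>
      intro q' h1 hq'
      obtain ⟨hb, hc, hd⟩ := hbc
      obtain ⟨r, rfl⟩ := mk_surj b
      subst h1
      have h2 : EP (mu M) r q' := EP_of_dist hd
      exact (ih r rfl hb).trans (Conn.of_E (h2.mono (le_mu M)) (mem_Tr hb M) (mem_Tr hq' M))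
  exact key _ h q rfl hq

theorem mk_eq_of_E {p q : Pt} (h : ∀ m, EP m p q) : mk p = mk q := by
  refine eq_of_forall_dist_le fun ε hε => ?_
  obtain ⟨i, hi⟩ := exists_pow_lt_of_lt_one hε (show (1 / 2 : ℝ) < 1 by norm_num)
  exact ((dist_mk_lt (h (mu i))).trans hi).le

/-- A connected set with more than one point crosses a cell. -/
theorem exists_crossed {C : Set KS} (hC : IsPreconnected C) (hnt : C.Nontrivial) :
    ∃ n v, Mem n v ∧ ∀ r, Crs r (sub (Tr (mk ⁻¹' C) (n + r)) v) := by
  by_contra hcon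
  push Not at hcon
  have hNC : NCr (mk ⁻¹' C) := hcon
  obtain ⟨a, ha, b, hb, hab⟩ := hnt
  obtain ⟨p, rfl⟩ := mk_surj a
  obtain ⟨q, rfl⟩ := mk_surj b
  exact hab (mk_eq_of_E fun m => key m _ (TC_preimage hC) hNC p ha q hb)

theorem meet_compact {C C' : Set KS} (hC : IsCompact C) (hC' : IsCompact C') {n : ℕ} {v : V}
    (hv : Mem n v) (h : ∀ r, Crs r (sub (Tr (mk ⁻¹' C) (n + r)) v))
    (h' : ∀ r, Crs r (sub (Tr (mk ⁻¹' C') (n + r)) v)) : (C ∩ C').Nonempty := by
  by_contra hcon
  have hdisj : Disjoint C C' := by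
    rw [Set.disjoint_left]
    intro z hz hz'
    exact hcon ⟨z, hz, hz'⟩
  obtain ⟨r, hr, hlt⟩ := Metric.exists_pos_forall_lt_edist hC hC'.isClosed hdisj
  obtain ⟨i, hi⟩ := exists_pow_lt_of_lt_one (show (0 : ℝ) < r by exact_mod_cast hr)
    (show (1 / 2 : ℝ) < 1 by norm_num)
  obtain ⟨p, hp, p', hp', heq⟩ := meet hv h h' (mu i)
  have h1 := hlt (mk p) hp (mk p') hp'
  have h2 : dist (mk p) (mk p') < (1 / 2) ^ i := dist_mk_lt (by unfold EP; rw [heq]; exact E.rfl)
  rw [edist_dist, ← ENNReal.ofReal_coe_nnreal] at h1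
  have h3 := (ENNReal.ofReal_lt_ofReal_iff_of_nonneg (NNReal.coe_nonneg r)).1 h1
  linarith

instance : Countable Step := by
  have h : Function.Injective (fun st : Step => match st with
      | T t c => (Sum.inl (t, c) : (Fin 3 × Bool) ⊕ (List Bool × ℕ))
      | R s k => Sum.inr (s, k)) := by
    intro a b hab
    cases a <;> cases b <;> simp_all
  exact h.countable

/-- A family of disjoint continua with more than one point is countable. -/
theorem countable_family {F : Set (Set KS)} (hF : ∀ C ∈ F, IsCompact C ∧ IsPreconnected C ∧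
    C.Nontrivial) (hd : F.PairwiseDisjoint id) : F.Countable := by
  choose! n v hv h using fun C (hC : C ∈ F) => exists_crossed (hF C hC).2.1 (hF C hC).2.2
  have hinj : Set.InjOn v F := by
    intro C hC C' hC' hvv
    by_contra hne
    have h1 : n C = n C' := by
      have e1 := (hv C hC).lev
      have e2 := (hv C' hC').lev
      rw [← e1, ← e2, hvv]
    have h2 := h C' hC'
    rw [← hvv, ← h1] at h2
    have h3 := meet_compact (hF C hC).1 (hF C' hC').1 (hv C hC) (h C hC) h2
    have h4 := hd hC hC' hne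
    simp only [Function.onFun, id] at h4
    rw [Set.disjoint_iff_inter_eq_empty] at h4
    rw [h4] at h3
    exact Set.not_nonempty_empty h3
  exact Set.countable_of_injective_of_countable_image hinj (Set.to_countable _)

/-! ### The continua with index `x` -/

theorem Mem.iter (k : ℕ) : ∀ {m : ℕ} {v : V}, Mem (m + k) v → Mem m (SU.pr^[k] v) := by
  induction k with
  | zero => intro m v h; exact h
  | succ k ih =>
    intro m v h
    rw [Function.iterate_succ_apply]
    exact ih h.pr

theorem InG.iter (k : ℕ) : ∀ {m : ℕ} {x : X} {v : V}, InG (m + k) x v → InG m x (SU.pr^[k] v) := by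
  induction k with
  | zero => intro m x v h; exact h
  | succ k ih =>
    intro m x v h
    rw [Function.iterate_succ_apply]
    exact ih h.pr

/-- The point of the cell `v` with the local address `q`. -/
noncomputable def ins {M : ℕ} {v : V} (hv : Mem M v) (q : Pt) : Pt :=
  ⟨fun m => if M ≤ m then v ++ q.1 (m - M) else pr^[M - m] v, fun m => by
    beta_reduce
    constructor
    · split_ifs with h
      · have := hv.append (q.mem (m - M))
        rwa [show M + (m - M) = m by omega] at this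
      · exact Mem.iter (M - m) (by rwa [show m + (M - m) = M by omega])
    · by_cases h1 : M ≤ m
      · rw [if_pos (by omega), if_pos h1, show m + 1 - M = (m - M) + 1 by omega,
          pr_append v (q.mem _).ne_nil, q.pr]
      · rw [if_neg h1]
        by_cases h2 : M ≤ m + 1
        · have h3 : m + 1 - M = 0 := by omega
          have h4 : M - m = 1 := by omega
          rw [if_pos h2, h3, h4, (q.mem 0).zero, List.append_nil]
          rfl
        · rw [if_neg h2, show M - m = (M - (m + 1)) + 1 by omega, Function.iterate_succ_apply']⟩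

/-- The exit with index `x`. -/
def bpt (x : X) : Pt := ⟨fun m => B m x, fun m => ⟨mem_B m x, pr_B m x⟩⟩

/-- The entrance with index `x`. -/
def apt (x : X) : Pt := ⟨fun m => A m x, fun m => ⟨mem_A m x, pr_A m x⟩⟩

theorem InG.local_index {M : ℕ} {x : X} {v : V} (h : InG M x v) :
    ∃ y, ∀ r w, InG r y w → InG (M + r) x (v ++ w) := by
  induction h with
  | nil x => exact ⟨x, fun r w h => by simpa using h⟩
  | cons hv hr _ ih =>
    obtain ⟨y', hy'⟩ := ih
    exact ⟨y', fun r w h => InG.cons hv (by omega) (hy' r w h)⟩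

/-- The points with index `x`. -/
def GP (x : X) : Set Pt := {p | ∀ m, InG m x (p.1 m)}

theorem rep {M : ℕ} {x : X} {v : V} (h : InG M x v) : ∃ p ∈ GP x, p.1 M = v := by
  obtain ⟨y, hy⟩ := h.local_index
  refine ⟨ins h.mem (bpt y), fun m => ?_, ?_⟩
  · simp only [ins]
    split_ifs with h1
    · have := hy (m - M) _ (inG_B _ y)
      rwa [show M + (m - M) = m by omega] at this
    · exact InG.iter (M - m) (by rwa [show m + (M - m) = M by omega])
  · simp only [ins, le_refl, if_true, Nat.sub_self, bpt, B, List.append_nil]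

theorem isClosed_GP (x : X) : IsClosed (GP x) := by
  have : GP x = ⋂ m, (fun p : Pt => p.1 m) ⁻¹' {v | InG m x v} := by
    ext p
    simp [GP]
  rw [this]
  refine isClosed_iInter fun m => IsClosed.preimage ?_ (isClosed_discrete _)
  exact (continuous_apply m).comp continuous_subtype_val

/-- The continuum with index `x`. -/
def Gam (x : X) : Set KS := mk '' GP x

theorem isCompact_Gam (x : X) : IsCompact (Gam x) :=
  (isClosed_GP x).isCompact.image continuous_mk

theorem conn_list {M : ℕ} {D : Set V} (l : List V) : l.IsChain (Nx M) → (∀ v ∈ l, v ∈ D) →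
    ∀ a ∈ l.head?, ∀ b ∈ l, Conn M D a b := by
  induction l with
  | nil => intro _ _ a ha; simp at ha
  | cons c l ih =>
    intro hch hD a ha b hb
    simp only [List.head?_cons, Option.mem_def, Option.some.injEq] at ha
    subst ha
    rw [List.mem_cons] at hb
    rcases hb with rfl | hb
    · exact Relation.ReflTransGen.refl
    · cases l with
      | nil => simp at hb
      | cons d l =>
        rw [List.isChain_cons_cons] at hch
        refine Relation.ReflTransGen.head ⟨Or.inl hch.1, hD _ (by simp), hD _ (by simp)⟩ ?_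
        exact ih hch.2 (fun v hv => hD v (List.mem_cons_of_mem _ hv)) d (by simp) b hb

theorem isPreconnected_Gam (x : X) : IsPreconnected (Gam x) := by
  refine preconnected_of_chain (isCompact_Gam x) ?_
  rintro ε hε _ ⟨p, hp, rfl⟩ _ ⟨q, hq, rfl⟩
  obtain ⟨i, hi⟩ := exists_pow_lt_of_lt_one hε (show (1 / 2 : ℝ) < 1 by norm_num)
  have hconn : ∀ v, InG (mu i) x v →
      Conn (mu i) {w | InG (mu i) x w} (A (mu i) x) v := fun v hv =>
    conn_list (W (mu i) x) (W_chain _ _) (fun v hv => mem_W.1 hv) _ (W_head _ _) v (mem_W.2 hv)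
  have h1 : Conn (mu i) {w | InG (mu i) x w} (p.1 (mu i)) (q.1 (mu i)) :=
    (hconn _ (hp _)).symm.trans (hconn _ (hq _))
  have key : ∀ v, Conn (mu i) {w | InG (mu i) x w} (p.1 (mu i)) v → ∀ q' ∈ GP x,
      q'.1 (mu i) = v → Relation.ReflTransGen (EStep (Gam x) ε) (mk p) (mk q') := by
    intro v hv
    induction hv with
    | refl =>
      intro q' hq' h2
      refine Relation.ReflTransGen.single ⟨⟨p, hp, rfl⟩, ⟨q', hq', rfl⟩, ?_⟩
      refine (dist_mk_lt (i := i) ?_).trans hi
      unfold EP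
      rw [h2]
      exact E.rfl
    | @tail b c _ hbc ih =>
      intro q' hq' h2
      obtain ⟨hadj, hb, hc⟩ := hbc
      obtain ⟨r, hr, hrb⟩ := rep hb
      refine (ih r hr hrb).tail ⟨⟨r, hr, rfl⟩, ⟨q', hq', rfl⟩, ?_⟩
      refine (dist_mk_lt (i := i) ?_).trans hi
      unfold EP
      rw [h2, hrb]
      exact Or.inr hadj
  exact key _ h1 q hq rfl

theorem nontrivial_Gam (x : X) : (Gam x).Nontrivial := by
  refine ⟨mk (apt x), ⟨apt x, fun m => inG_A m x, rfl⟩, mk (bpt x), ⟨bpt x, fun m => inG_B m x, rfl⟩,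
    fun h => ?_⟩
  have h1 : EP (mu 1) (apt x) (bpt x) := EP_of_dist (by rw [h, dist_self]; positivity)
  have h2 : E 1 (A 1 x) (B 1 x) := h1.mono (le_mu 1)
  have h3 := f_A 1 x
  have h4 := f_B 1 x
  have h5 : L 1 = 4 := by
    rw [show (1 : ℕ) = 0 + 1 from rfl, L_succ]
    simp [K, L_zero]
  rcases h2 with h2 | h2 | h2
  · rw [h2] at h3
    omega
  · have := f_Nx h2
    omega
  · have := f_Nx h2
    omega

instance : Nonempty KS := ⟨mk (bpt fun _ => false)⟩

end Pool.Agent.K7.H82.SU
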