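import Pool.Agent.K7.H82.SU.Key

/-!
# Two sets which cross the same cell meet
-/

set_option autoImplicit false

namespace Pool.Agent.K7.H82.SU

open Step Filter

theorem pre_app_le (s : List Bool) (y : X) {j : ℕ} (hj : j ≤ s.length) :
    pre j (app s y) = s.take j := by
  apply List.ext_getElem
  · simp [hj]
  · intro i h1 h2
    have h3 : i < s.length := by simp at h2; omega
    simp [pre, app, h3]

/-- A crossing walk meets all cells along an index. -/
theorem crs_hits {M : ℕ} {D : Set V} (hM : 1 ≤ M) (h : Crs M D) :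
    ∃ x : X, ∀ j, 1 ≤ j → j ≤ M → ∀ k < K j, ∃ u, R (pre j x) k :: u ∈ D := by
  obtain ⟨y0, z0, hy, hz, hc⟩ := h
  have key : ∀ w, Conn M D (A M y0) w →
      (∃ s k w', w = R s k :: w' ∧
        (∀ j, 1 ≤ j → j < s.length → ∀ k' < K j, ∃ u, R (s.take j) k' :: u ∈ D) ∧
        ∀ k' ≤ k, ∃ u, R s k' :: u ∈ D) ∨
      ∃ x : X, ∀ j, 1 ≤ j → j ≤ M → ∀ k < K j, ∃ u, R (pre j x) k :: u ∈ D := by
    intro w hw
    induction hw with
    | refl =>
      left
      obtain ⟨M', rfl⟩ : ∃ M', M = M' + 1 := ⟨M - 1, by omega⟩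
      refine ⟨[y0 0], 0, _, rfl, ?_, ?_⟩
      · intro j h1 h2
        simp at h2
        omega
      · intro k' hk'
        have : k' = 0 := by omega
        subst this
        exact ⟨_, hy⟩
    | tail _ hbc ih =>
      rcases ih with ⟨s, k, w', rfl, h1, h2⟩ | hgoal
      · obtain ⟨hadj, hb, hc⟩ := hbc
        rcases hadj.step with ⟨r1, w2, hr, -, rfl, ha⟩ |
          ⟨r1, y1, st', r', y', hnx, hr, hr', rfl, rfl⟩ |
          ⟨r1, y1, st', r', y', hnx, hr, hr', rfl, rfl⟩
        · exact Or.inl ⟨s, k, w2, rfl, h1, h2⟩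
        · cases hnx with
          | c1 _ h hk =>
            left
            refine ⟨s, k + 1, _, rfl, h1, fun k' hk' => ?_⟩
            rcases Nat.lt_or_eq_of_le hk' with h3 | h3
            · exact h2 k' (by omega)
            · subst h3
              exact ⟨_, hc⟩
          | c2 _ h hk =>
            left
            refine ⟨s ++ [y1 0], 0, _, rfl, ?_, fun k' hk' => ?_⟩
            · intro j hj1 hj2 k' hk'
              simp only [List.length_append, List.length_singleton] at hj2
              rcases Nat.lt_or_eq_of_le (Nat.le_of_lt_succ hj2) with h3 | h3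
              · rw [List.take_append_of_le_length (by omega)]
                exact h1 j hj1 h3 k' hk'
              · subst h3
                rw [List.take_append_of_le_length le_rfl, List.take_length]
                exact h2 k' (by omega)
            · have : k' = 0 := by omega
              subst this
              exact ⟨_, hc⟩
          | c3 _ h hk =>
            right
            refine ⟨app s y1, fun j hj1 hj2 k' hk' => ?_⟩
            rw [pre_app_le s y1 (by omega)]
            rcases Nat.lt_or_eq_of_le hj2 with h3 | h3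
            · exact h1 j hj1 (by omega) k' hk'
            · rw [List.take_of_length_le (by omega)]
              subst h3
              rw [← h] at hk'
              exact h2 k' (by omega)
        · left
          cases hnx with
          | @c1 _ k1 _ h hk => exact ⟨s, k1, _, rfl, h1, fun k' hk' => h2 k' (by omega)⟩
          | @c2 s' k1 _ h hk =>
            refine ⟨s', k1, _, rfl, ?_, ?_⟩
            · intro j hj1 hj2 k' hk'
              have h3 := h1 j hj1 (by simp; omega) k' hk'
              rwa [List.take_append_of_le_length (by omega)] at h3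
            · intro k' hk'
              have hs : 1 ≤ s'.length := Val.pos (st := R s' k1) (by simp only [Val]; omega)
              have h3 := h1 s'.length hs (by simp) k' (by omega)
              rwa [List.take_append_of_le_length le_rfl, List.take_length] at h3
      · exact Or.inr hgoal
  rcases key _ hc with ⟨s, k, w', h1, -⟩ | hgoal
  · obtain ⟨M', rfl⟩ : ∃ M', M = M' + 1 := ⟨M - 1, by omega⟩
    simp [B] at h1
  · exact hgoal

/-- A coherent system of sets of vertices. -/
structure Sys (D : ℕ → Set V) : Prop where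
  mem : ∀ m u, u ∈ D m → Mem m u
  pr : ∀ m u, u ∈ D (m + 1) → pr u ∈ D m

theorem Sys.iter {D : ℕ → Set V} (h : Sys D) (k : ℕ) : ∀ m u, u ∈ D (m + k) → SU.pr^[k] u ∈ D m := by
  induction k with
  | zero => intro m u hu; exact hu
  | succ k ih =>
    intro m u hu
    rw [Function.iterate_succ_apply]
    exact ih m _ (h.pr _ _ hu)

theorem Sys.sub {D : ℕ → Set V} (h : Sys D) {n : ℕ} {v : V} (hv : Mem n v) :
    Sys fun r => SU.sub (D (n + r)) v where
  mem := by
    intro m u hu
    obtain ⟨k, hk, h1⟩ := Mem.of_append hv (h.mem _ _ hu)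
    rwa [show m = k by omega]
  pr := by
    intro m u hu
    have h0 : Mem (m + 1) u := by
      obtain ⟨k, hk, h1⟩ := Mem.of_append hv (h.mem _ _ hu)
      rwa [show m + 1 = k by omega]
    have h1 := h.pr (n + m) _ hu
    rwa [pr_append v h0.ne_nil] at h1

theorem Sys.Tr (C : Set Pt) : Sys (SU.Tr C) where
  mem := fun _ _ h => Tr_mem h
  pr := fun _ _ h => Tr_pr h

theorem hits_tour {D : ℕ → Set V} (h : Sys D) {M m : ℕ} (hm : m + 2 ≤ M) {x : X}
    (hx : ∀ k < K (m + 2), ∃ u, R (pre (m + 2) x) k :: u ∈ D M) {t : Fin 3} {c : Bool} {u : V}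
    (hu : InG (m + 1) x (T t c :: u)) : T t c :: u ∈ D (m + 1) := by
  have h1 : ∀ k < K (m + 2), pr1 (R (pre (m + 2) x) k) ∈ D (m + 1) := by
    intro k hk
    obtain ⟨u, hu⟩ := hx k hk
    have h2 := h.mem _ _ hu
    obtain ⟨r, hv, hr, hmu⟩ := h2.cons_inv
    simp only [wt, length_pre] at hr
    subst hr
    have h3 := h.iter r (m + 2) _ hu
    have h4 := pr_iter r [R (pre (m + 2) x) k] hmu
    rw [List.singleton_append] at h4
    rw [h4] at h3
    exact h.pr _ _ h3
  have h2 : T t c :: u ∈ tour (pre (m + 2) x) := by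
    rw [tour_two (length_pre _ _), List.mem_append, List.mem_reverse, or_self, mem_Tw]
    refine ⟨hu.congr ?_, t, c, u, rfl⟩
    have h3 := app_ext (pre (m + 2) x) (sh (m + 2) x)
    rw [app_pre, length_pre] at h3
    exact h3
  obtain ⟨k, hk, h3⟩ := List.mem_iff_getElem.1 h2
  have hk' : k < K (m + 2) := by
    rw [tour_length (by simp), length_pre] at hk
    exact hk
  have h4 := h1 k hk'
  simp only [pr1] at h4
  rw [List.getD_eq_getElem _ _ hk, h3] at h4
  exact h4

/-- A system which crosses contains the last part of a continuum. -/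
theorem crs_limit {D : ℕ → Set V} (h : Sys D) (hc : ∀ M, Crs M (D M)) :
    ∃ x : X, ∀ m t c u, InG (m + 1) x (T t c :: u) → T t c :: u ∈ D (m + 1) := by
  choose x hx using fun M => crs_hits (M := M + 1) (by omega) (hc (M + 1))
  obtain ⟨x0, φ, hφ, hlim⟩ := CompactSpace.tendsto_subseq x
  refine ⟨x0, fun m t c u hu => ?_⟩
  have h1 : ∀ᶠ n in atTop, Ag (m + 2) x0 (x (φ n)) := by
    have h2 : ∀ i ∈ Finset.range (m + 2), ∀ᶠ n in atTop, x0 i = x (φ n) i := by
      intro i _
      have h3 := (tendsto_pi_nhds.1 hlim) i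
      rw [nhds_discrete, tendsto_pure] at h3
      exact h3.mono fun n hn => hn.symm
    exact ((Finset.range (m + 2)).eventually_all.2 h2).mono fun n hn i hi =>
      hn i (Finset.mem_range.2 hi)
  obtain ⟨n, hn1, hn2⟩ := (h1.and (eventually_ge_atTop (m + 2))).exists
  have h4 : m + 2 ≤ φ n + 1 := by
    have := hφ.id_le n
    simp only [id] at this
    omega
  exact hits_tour h h4 (fun k hk => hx (φ n) (m + 2) (by omega) h4 k hk) (hu.congr hn1)

theorem conn_of_chain {M : ℕ} {D : Set V} (l : List V) : l.IsChain (Nx M) → (∀ v ∈ l, v ∈ D) →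
    ∀ a b, l.head? = some a → l.getLast? = some b → Conn M D a b := by
  induction l with
  | nil => intro _ _ a b h; simp at h
  | cons c l ih =>
    intro hch hD a b ha hb
    simp only [List.head?_cons, Option.some.injEq] at ha
    subst ha
    cases l with
    | nil =>
      simp only [List.getLast?_singleton, Option.some.injEq] at hb
      subst hb
      exact Relation.ReflTransGen.refl
    | cons d l =>
      rw [List.isChain_cons_cons] at hch
      rw [List.getLast?_cons_cons] at hb
      refine Relation.ReflTransGen.head ⟨Or.inl hch.1, hD _ (by simp), hD _ (by simp)⟩ ?_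
      exact ih hch.2 (fun v hv => hD v (List.mem_cons_of_mem _ hv)) d b rfl hb

theorem crs_of_inG {M : ℕ} {D : Set V} {y : X} (h : ∀ u, InG M y u → u ∈ D) : Crs M D := by
  refine ⟨y, y, h _ (inG_A M y), h _ (inG_B M y), ?_⟩
  exact conn_of_chain (W M y) (W_chain M y) (fun v hv => h v (mem_W.1 hv)) _ _ (W_head M y)
    (W_last M y)

theorem common_cell (x x' : X) : ∃ t c y y', inv (T t c) y = x ∧ inv (T t c) y' = x' := by
  have e0 : ∀ x : X, inv (T 0 (x 1)) (cn (x 0) (tl (tl x))) = x := by
    intro x
    funext i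
    simp only [inv]
    match i with
    | 0 => rfl
    | 1 => rfl
    | i + 2 => rfl
  have e1 : ∀ x : X, inv (T 1 (xor (x 1) (x 0))) (cn (x 0) (tl (tl x))) = x := by
    intro x
    funext i
    simp only [inv]
    match i with
    | 0 => rfl
    | 1 => simp
    | i + 2 => rfl
  have e2 : ∀ x : X, inv (T 2 (x 0)) (tl x) = x := fun x => cn_tl x
  by_cases h1 : x 1 = x' 1
  · refine ⟨0, x 1, _, cn (x' 0) (tl (tl x')), e0 x, ?_⟩
    rw [h1]
    exact e0 x'
  · by_cases h0 : x 0 = x' 0
    · refine ⟨2, x 0, _, tl x', e2 x, ?_⟩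
      rw [h0]
      exact e2 x'
    · refine ⟨1, xor (x 1) (x 0), _, cn (x' 0) (tl (tl x')), e1 x, ?_⟩
      have : xor (x 1) (x 0) = xor (x' 1) (x' 0) := by
        revert h1 h0
        cases x 0 <;> cases x 1 <;> cases x' 0 <;> cases x' 1 <;> simp
      rw [this]
      exact e1 x'

/-- Two crossing systems meet at all levels. -/
theorem crs_meet (m : ℕ) : ∀ D D' : ℕ → Set V, Sys D → Sys D' → (∀ M, Crs M (D M)) →
    (∀ M, Crs M (D' M)) → ∃ v, v ∈ D m ∧ v ∈ D' m := by
  induction m with
  | zero =>
    intro D D' _ _ h h'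
    obtain ⟨y, -, hy, -⟩ := h 0
    obtain ⟨y', -, hy', -⟩ := h' 0
    exact ⟨[], hy, hy'⟩
  | succ m ih =>
    intro D D' hD hD' h h'
    obtain ⟨x, hx⟩ := crs_limit hD h
    obtain ⟨x', hx'⟩ := crs_limit hD' h'
    obtain ⟨t, c, y, y', rfl, rfl⟩ := common_cell x x'
    have hT : Mem 1 [T t c] := Mem.cons trivial rfl Mem.nil
    obtain ⟨v, hv, hv'⟩ := ih _ _ (hD.sub hT) (hD'.sub hT) (fun M => by
      refine crs_of_inG (y := y) fun u hu => ?_
      have h1 := hx M t c u (InG.cons (r := M) trivial (by simp [wt]; omega) hu)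
      rw [Nat.add_comm] at h1
      exact h1) (fun M => by
      refine crs_of_inG (y := y') fun u hu => ?_
      have h1 := hx' M t c u (InG.cons (r := M) trivial (by simp [wt]; omega) hu)
      rw [Nat.add_comm] at h1
      exact h1)
    refine ⟨T t c :: v, ?_, ?_⟩
    · rw [Nat.add_comm]; exact hv
    · rw [Nat.add_comm]; exact hv'

/-- Two sets of points which cross the same cell have common vertices at all levels. -/
theorem meet {C C' : Set Pt} {n : ℕ} {v : V} (hv : Mem n v)
    (h : ∀ r, Crs r (sub (Tr C (n + r)) v)) (h' : ∀ r, Crs r (sub (Tr C' (n + r)) v)) (m : ℕ) :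
    ∃ p ∈ C, ∃ p' ∈ C', p.1 m = p'.1 m := by
  obtain ⟨u, ⟨p, hp, h1⟩, p', hp', h2⟩ := crs_meet m _ _ ((Sys.Tr C).sub hv) ((Sys.Tr C').sub hv) h h'
  refine ⟨p, hp, p', hp', ?_⟩
  simp only at h1 h2
  have h3 := p.iter n m
  have h4 := p'.iter n m
  rw [Nat.add_comm m n] at h3 h4
  rw [← h3, ← h4, h1, h2]

end Pool.Agent.K7.H82.SU
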