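import Mathlib

/-!
# Topological Hausdorff dimension and families of disjoint continua: definitions
-/

set_option autoImplicit false

namespace Pool.Agent.K7.H82.SU

open TopologicalSpace

open Classical in
/-- The Hausdorff dimension of a subset of a metric space, with the convention `dim_H ∅ = -1`. -/
noncomputable def dimHE {K : Type} [MetricSpace K] (S : Set K) : EReal :=
  if S = ∅ then -1 else (dimH S : EReal)

open Classical in
/-- The topological Hausdorff dimension: `-1` for the empty space, otherwise the infimum of the real
numbers `d ≥ 0` such that the space has a basis of open sets `U` with `dim_H ∂U ≤ d - 1`. -/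
noncomputable def dimtH (K : Type) [MetricSpace K] : EReal :=
  if IsEmpty K then -1 else
    ⨅ d ∈ {d : ℝ | 0 ≤ d ∧ ∃ B : Set (Set K), IsTopologicalBasis B ∧
      ∀ U ∈ B, dimHE (frontier U) ≤ ((d - 1 : ℝ) : EReal)}, (d : EReal)

/-- `C` is a non-degenerate continuum: compact, connected, with more than one point. -/
def IsNondegContinuum {K : Type} [MetricSpace K] (C : Set K) : Prop :=
  IsCompact C ∧ IsConnected C ∧ C.Nontrivial

/-- `K` contains a family `F` of pairwise disjoint non-degenerate continua such that every set
`S ⊆ K` that meets every member of `F` satisfies `dim_H S ≥ c - 1`. -/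
def HasFamily (K : Type) [MetricSpace K] (c : ℝ) : Prop :=
  ∃ F : Set (Set K), (∀ C ∈ F, IsNondegContinuum C) ∧ F.PairwiseDisjoint id ∧
    ∀ S : Set K, (∀ C ∈ F, (S ∩ C).Nonempty) → ((c - 1 : ℝ) : EReal) ≤ dimHE S

/-- Q1: for every non-empty compact metric space `K` and every real `c`, `dim_tH K ≥ c` if and only if
`K` contains such a family. -/
def Q1 : Prop :=
  ∀ (K : Type) [MetricSpace K] [CompactSpace K] [Nonempty K] (c : ℝ),
    (c : EReal) ≤ dimtH K ↔ HasFamily K c

end Pool.Agent.K7.H82.SU
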