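import Pool.Agent.K7.H82.SU.Cont

/-!
# Hausdorff dimension of transversals
-/

set_option autoImplicit false

namespace Pool.Agent.K7.H82.SU

open Step Filter Topology MeasureTheory
open scoped NNReal ENNReal

/-- The uniform measure on the index set. -/
noncomputable def nu : Measure X :=
  Measure.infinitePi fun _ : ℕ => (PMF.uniformOfFintype Bool).toMeasure

instance : IsProbabilityMeasure nu := by
  unfold nu
  infer_instance

theorem nu_cyl (n : ℕ) (a : X) : nu {x | Ag n a x} = (1 / 2) ^ n := by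
  have h1 : {x : X | Ag n a x} = Set.pi (Finset.range n : Set ℕ) fun i => {a i} := by
    ext x
    simp only [Ag, Set.mem_ofPred_eq, Set.mem_pi, Finset.coe_range, Set.mem_Iio,
      Set.mem_singleton_iff]
    exact ⟨fun h i hi => (h i hi).symm, fun h i hi => (h i hi).symm⟩
  have h3 := Measure.infinitePi_pi (μ := fun _ : ℕ => (PMF.uniformOfFintype Bool).toMeasure)
    (s := Finset.range n) (t := fun i => {a i}) (fun i _ => measurableSet_singleton _)
  rw [h1, nu]
  refine h3.trans ?_
  have h2 : ∀ b : Bool, (PMF.uniformOfFintype Bool).toMeasure {b} = 1 / 2 := by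
    intro b
    rw [PMF.toMeasure_apply_singleton _ _ (measurableSet_singleton _)]
    simp
  rw [Finset.prod_congr rfl fun i _ => h2 (a i)]
  simp

theorem inv_ag {st : Step} {r : ℕ} {a y : X} (h : Ag (r + 1) a y) :
    Ag (wt st + r + 1) (inv st a) (inv st y) := by
  cases st with
  | R s k =>
    intro i hi
    simp only [wt] at hi
    simp only [inv, app]
    split_ifs with h1
    · rfl
    · exact h _ (by omega)
  | T t c =>
    intro i hi
    simp only [wt] at hi
    match t with
    | 0 =>
      simp only [inv]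
      match i with
      | 0 => exact h 0 (by omega)
      | 1 => rfl
      | i + 2 => exact h (i + 1) (by omega)
    | 1 =>
      simp only [inv]
      match i with
      | 0 => exact h 0 (by omega)
      | 1 =>
        simp only [cn_succ, cn_zero]
        rw [h 0 (by omega)]
      | i + 2 => exact h (i + 1) (by omega)
    | 2 =>
      simp only [inv]
      match i with
      | 0 => rfl
      | i + 1 => exact h i (by omega)

theorem InG.cons_inv {m : ℕ} {x : X} {st : Step} {v : V} (h : InG m x (st :: v)) :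
    ∃ r y, Val st ∧ wt st + r = m ∧ inv st y = x ∧ InG r y v := by
  cases h with
  | cons hv hr h => exact ⟨_, _, hv, hr, rfl, h⟩

theorem two_words {m : ℕ} {v : V} (h : Mem m v) :
    ∃ a b : X, ∀ x, InG m x v → Ag (m + 1) a x ∨ Ag (m + 1) b x := by
  induction h with
  | nil =>
    refine ⟨fun _ => false, fun _ => true, fun x _ => ?_⟩
    cases hx : x 0 with
    | false =>
      left
      intro i hi
      have : i = 0 := by omega
      subst this
      exact hx.symm
    | true =>
      right
      intro i hi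
      have : i = 0 := by omega
      subst this
      exact hx.symm
  | @cons m r st v hv hr _ ih =>
    obtain ⟨a, b, hab⟩ := ih
    subst hr
    refine ⟨inv st a, inv st b, fun x hx => ?_⟩
    obtain ⟨r', y, -, hr', rfl, h'⟩ := hx.cons_inv
    have : r' = r := by omega
    subst this
    rcases hab y h' with h1 | h1
    · exact Or.inl (inv_ag h1)
    · exact Or.inr (inv_ag h1)

theorem nu_vertex {m : ℕ} {v : V} (h : Mem m v) : nu {x | InG m x v} ≤ (1 / 2) ^ m := by
  obtain ⟨a, b, hab⟩ := two_words h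
  have h1 : {x | InG m x v} ⊆ {x | Ag (m + 1) a x} ∪ {x | Ag (m + 1) b x} := fun x hx => hab x hx
  refine (measure_mono h1).trans ((measure_union_le _ _).trans ?_)
  rw [nu_cyl, nu_cyl, pow_succ, ← mul_add]
  simp [ENNReal.inv_two_add_inv_two]

/-- The indices of the continua which meet `S`. -/
def NN (S : Set KS) : Set X := {x | (S ∩ Gam x).Nonempty}

theorem nu_small {S : Set KS} {i : ℕ} (h : ∀ p q : Pt, mk p ∈ S → mk q ∈ S → EP (mu i) p q) :
    nu (NN S) ≤ 2 * (1 / 2) ^ (i * i) := by
  have hmu : ((1 / 2 : ℝ≥0∞)) ^ (mu i) ≤ (1 / 2) ^ (i * i) :=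
    pow_le_pow_of_le_one (by simp) (by simp) (mu_ge i)
  by_cases hne : ∃ p0, mk p0 ∈ S
  · obtain ⟨p0, hp0⟩ := hne
    obtain ⟨w, hwm, hw⟩ : ∃ w, Mem (mu i) w ∧
        ∀ p, mk p ∈ S → p.1 (mu i) = p0.1 (mu i) ∨ p.1 (mu i) = w := by
      by_cases hall : ∀ p, mk p ∈ S → p.1 (mu i) = p0.1 (mu i)
      · exact ⟨_, p0.mem _, fun p hp => Or.inl (hall p hp)⟩
      · push Not at hall
        obtain ⟨p1, hp1, h1⟩ := hall
        refine ⟨_, p1.mem _, fun p hp => ?_⟩
        by_contra hcon
        push Not at hcon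
        have e1 := h p p0 hp hp0
        have e2 := h p p1 hp hp1
        have e3 := h p0 p1 hp0 hp1
        rcases e1 with e1 | e1 | e1
        · exact hcon.1 e1
        all_goals
          rcases e2 with e2 | e2 | e2
          · exact hcon.2 e2
          all_goals
            rcases e3 with e3 | e3 | e3
            · exact h1 e3.symm
            all_goals
              have g1 := f_Nx e1
              have g2 := f_Nx e2
              have g3 := f_Nx e3
              omega
    have h1 : NN S ⊆ {x | InG (mu i) x (p0.1 (mu i))} ∪ {x | InG (mu i) x w} := by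
      rintro x ⟨_, hz, p, hp, rfl⟩
      rcases hw p hz with h2 | h2
      · left
        have := hp (mu i)
        rwa [h2] at this
      · right
        have := hp (mu i)
        rwa [h2] at this
    refine (measure_mono h1).trans ((measure_union_le _ _).trans ?_)
    rw [two_mul]
    exact add_le_add ((nu_vertex (p0.mem _)).trans hmu) ((nu_vertex hwm).trans hmu)
  · have h1 : NN S = ∅ := by
      rw [Set.eq_empty_iff_forall_notMem]
      rintro x ⟨_, hz, p, hp, rfl⟩
      exact hne ⟨p, hz⟩
    rw [h1]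
    simp

theorem nu_diam (s : ℕ) {S : Set KS} (hd : Metric.ediam S ≤ 1 / 4) :
    nu (NN S) ≤ 2 ^ (s * s + 3 * s + 1) * ⨆ _ : S.Nonempty, Metric.ediam S ^ (s : ℝ) := by
  by_cases hne : S.Nonempty
  swap
  · have h1 : NN S = ∅ := by
      rw [Set.eq_empty_iff_forall_notMem]
      rintro x ⟨z, hz, -⟩
      exact hne ⟨z, hz⟩
    rw [h1]
    simp
  simp only [hne, ciSup_pos, ENNReal.rpow_natCast]
  have hfin : Metric.ediam S ≠ ⊤ := ne_top_of_le_ne_top (by simp) hd
  have hdist : ∀ p q : Pt, mk p ∈ S → mk q ∈ S →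
      dist (mk p) (mk q) ≤ (Metric.ediam S).toReal := by
    intro p q hp hq
    rw [← ENNReal.ofReal_le_iff_le_toReal hfin, ← edist_dist]
    exact Metric.edist_le_ediam_of_mem hp hq
  set d : ℝ := (Metric.ediam S).toReal with hdd
  have hd4 : d ≤ 1 / 4 := by
    have := ENNReal.toReal_mono (by simp) hd
    simpa using this
  have hd0 : 0 ≤ d := ENNReal.toReal_nonneg
  rcases hd0.eq_or_lt with h0 | h0
  · have h1 : nu (NN S) = 0 := by
      refine le_antisymm ?_ (zero_le)
      have h2 : ∀ i : ℕ, nu (NN S) ≤ 2 * (1 / 2) ^ i := by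
        intro i
        refine (nu_small (i := i) fun p q hp hq => EP_of_dist ?_).trans ?_
        · exact (hdist p q hp hq).trans_lt (by rw [← h0]; positivity)
        · exact mul_le_mul_right (pow_le_pow_of_le_one (by simp) (by simp) (Nat.le_mul_self i)) _
      refine ge_of_tendsto' (f := fun i : ℕ => 2 * (1 / 2 : ℝ≥0∞) ^ i) (x := atTop) ?_ h2
      have h3 : Tendsto (fun i : ℕ => (1 / 2 : ℝ≥0∞) ^ i) atTop (𝓝 0) :=
        ENNReal.tendsto_pow_atTop_nhds_zero_of_lt_one (by simp)
      have h4 := ENNReal.Tendsto.const_mul (a := 2) h3 (Or.inr (by simp))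
      simpa using h4
    rw [h1]
    exact zero_le
  · obtain ⟨n, hn1, hn2⟩ := exists_nat_pow_near_of_lt_one h0 (by linarith)
      (show (0 : ℝ) < 1 / 2 by norm_num) (by norm_num)
    have hn : 2 ≤ n := by
      by_contra hcon
      have h1 : n = 0 ∨ n = 1 := by omega
      rcases h1 with rfl | rfl
      · norm_num at hn1
        linarith
      · norm_num at hn1
        linarith
    obtain ⟨i, rfl⟩ : ∃ i, n = i + 2 := ⟨n - 2, by omega⟩
    have h1 : nu (NN S) ≤ 2 * (1 / 2) ^ (i * i) := by
      refine nu_small fun p q hp hq => EP_of_dist ?_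
      refine (hdist p q hp hq).trans_lt (hn2.trans_lt ?_)
      exact pow_lt_pow_right_of_lt_one₀ (by norm_num) (by norm_num) (by omega)
    refine h1.trans ?_
    have h2 : (1 / 2 : ℝ≥0∞) ^ (i + 3) ≤ Metric.ediam S := by
      rw [← ENNReal.ofReal_toReal hfin]
      have h3 : ENNReal.ofReal ((1 / 2) ^ (i + 3)) ≤ ENNReal.ofReal d :=
        ENNReal.ofReal_le_ofReal hn1.le
      refine le_trans (le_of_eq ?_) h3
      rw [ENNReal.ofReal_pow (by norm_num)]
      congr 1
      rw [ENNReal.ofReal_div_of_pos (by norm_num)]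
      simp
    have h3 : ((1 / 2 : ℝ≥0∞) ^ (i + 3)) ^ s ≤ Metric.ediam S ^ s := by gcongr
    refine le_trans ?_ (mul_le_mul_right h3 _)
    rw [← pow_mul]
    have h4 : (2 : ℝ≥0∞) ^ (s * s + 3 * s + 1) * (1 / 2) ^ ((i + 3) * s) =
        2 ^ (s * s + 3 * s + 1) / 2 ^ ((i + 3) * s) := by
      rw [one_div, ← ENNReal.inv_pow, div_eq_mul_inv]
    have h5 : (2 : ℝ≥0∞) * (1 / 2) ^ (i * i) = 2 / 2 ^ (i * i) := by
      rw [one_div, ← ENNReal.inv_pow, div_eq_mul_inv]
    rw [h4, h5, ENNReal.div_le_iff (by simp) (by simp)]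
    rw [ENNReal.div_eq_inv_mul, mul_assoc, ← pow_add, mul_comm, ← div_eq_mul_inv,
      ENNReal.le_div_iff_mul_le (by simp) (by simp), ← pow_succ']
    refine pow_le_pow_right₀ (by norm_num) ?_
    nlinarith [sq_nonneg ((i : ℤ) - s), Nat.mul_le_mul (Nat.zero_le i) (Nat.zero_le s),
      sq_nonneg (i - s), mul_self_nonneg ((i : ℤ) - s), two_mul_le_add_sq i s]

/-- A set which meets all the continua `Gam x` has infinite Hausdorff dimension. -/
theorem dimH_transversal {S : Set KS} (hS : ∀ x, (S ∩ Gam x).Nonempty) : dimH S = ⊤ := by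
  borelize KS
  have key : ∀ s : ℕ, (μH[(s : ℝ)] : Measure KS) S ≠ 0 := by
    intro s
    set C : ℝ≥0∞ := 2 ^ (s * s + 3 * s + 1) with hC
    have hC0 : C ≠ 0 := by simp [hC]
    have hCt : C ≠ ⊤ := by simp [hC]
    have h1 : C⁻¹ ≤ (μH[(s : ℝ)] : Measure KS) S := by
      rw [Measure.hausdorffMeasure_apply]
      refine le_iSup₂_of_le (1 / 4 : ℝ≥0∞) (by simp) ?_
      refine le_iInf fun t => le_iInf fun ht => le_iInf fun hd => ?_
      have h2 : (1 : ℝ≥0∞) ≤ ∑' n, nu (NN (t n)) := by
        have h3 : (Set.univ : Set X) ⊆ ⋃ n, NN (t n) := by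
          intro x _
          obtain ⟨z, hz, hzx⟩ := hS x
          obtain ⟨n, hn⟩ := Set.mem_iUnion.1 (ht hz)
          exact Set.mem_iUnion.2 ⟨n, z, hn, hzx⟩
        calc (1 : ℝ≥0∞) = nu Set.univ := measure_univ.symm
          _ ≤ nu (⋃ n, NN (t n)) := measure_mono h3
          _ ≤ ∑' n, nu (NN (t n)) := measure_iUnion_le _
      have h4 : ∑' n, nu (NN (t n)) ≤ C * ∑' n, ⨆ _ : (t n).Nonempty, Metric.ediam (t n) ^ (s : ℝ) := by
        rw [← ENNReal.tsum_mul_left]
        exact ENNReal.tsum_le_tsum fun n => nu_diam s (hd n)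
      have h5 := h2.trans h4
      rw [ENNReal.inv_le_iff_le_mul (fun _ => hC0) (fun h => absurd h hCt)]
      exact h5
    intro h0
    rw [h0] at h1
    simp only [nonpos_iff_eq_zero, ENNReal.inv_eq_zero] at h1
    exact hCt h1
  refine ENNReal.eq_top_of_forall_nnreal_le fun r => ?_
  obtain ⟨s, hs⟩ := exists_nat_ge r
  have h1 : ((s : ℝ≥0) : ℝ≥0∞) ≤ dimH S :=
    le_dimH_of_hausdorffMeasure_ne_zero (by simpa using key s)
  refine le_trans ?_ h1
  exact_mod_cast hs

end Pool.Agent.K7.H82.SU
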