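import Pool.Agent.K7.H82.SU.Dim
import Pool.Agent.K7.H82.SU.Defs

/-!
# The counterexample
-/

set_option autoImplicit false

namespace Pool.Agent.K7.H82.SU

open Step Filter Topology TopologicalSpace
open scoped NNReal ENNReal

theorem Gam_meet (x y : X) : (Gam x ∩ Gam y).Nonempty := by
  have h : ∀ x : X, ∀ r, Crs r (sub (Tr (mk ⁻¹' (Gam x)) (0 + r)) []) := by
    intro x r
    refine crs_of_inG (y := x) fun u hu => ?_
    obtain ⟨p, hp, h1⟩ := rep hu
    refine ⟨p, ⟨p, hp, rfl⟩, ?_⟩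
    simp only [Nat.zero_add, List.nil_append]
    exact h1
  exact meet_compact (isCompact_Gam x) (isCompact_Gam y) Mem.nil (h x) (h y)

theorem preconnected_union : IsPreconnected (⋃ x, Gam x) := by
  refine isPreconnected_of_forall_pair ?_
  intro a ha b hb
  obtain ⟨x, hx⟩ := Set.mem_iUnion.1 ha
  obtain ⟨y, hy⟩ := Set.mem_iUnion.1 hb
  refine ⟨Gam x ∪ Gam y, Set.union_subset (Set.subset_iUnion _ _) (Set.subset_iUnion _ _),
    Or.inl hx, Or.inr hy, ?_⟩
  exact IsPreconnected.union' (Gam_meet x y) (isPreconnected_Gam x) (isPreconnected_Gam y)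

theorem closure_union : closure (⋃ x, Gam x) = Set.univ := by
  rw [Set.eq_univ_iff_forall]
  intro z
  obtain ⟨p, rfl⟩ := mk_surj z
  rw [Metric.mem_closure_iff]
  intro ε hε
  obtain ⟨i, hi⟩ := exists_pow_lt_of_lt_one hε (show (1 / 2 : ℝ) < 1 by norm_num)
  obtain ⟨x, hx⟩ := (p.mem (mu i)).exists_inG
  obtain ⟨q, hq, h1⟩ := rep hx
  refine ⟨mk q, Set.mem_iUnion.2 ⟨x, q, hq, rfl⟩, (dist_mk_lt (i := i) ?_).trans hi⟩
  unfold EP
  rw [h1]
  exact E.rfl

theorem connected_KS : ConnectedSpace KS where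
  isPreconnected_univ := by
    rw [← closure_union]
    exact preconnected_union.closure
  toNonempty := inferInstance

theorem toENNReal_bound {x : ℝ≥0∞} {r : ℝ} (h : (x : EReal) ≤ (r : EReal)) :
    x ≤ ENNReal.ofReal r := by
  have h1 := EReal.toENNReal_le_toENNReal h
  rwa [EReal.toENNReal_coe, EReal.toENNReal_of_ne_top (by simp), EReal.toReal_coe] at h1

theorem frontier_meets {Y : Type} [MetricSpace Y] {C U : Set Y} (hC : IsPreconnected C)
    (hU : IsOpen U) {a b : Y} (ha : a ∈ C) (hb : b ∈ C) (haU : a ∈ U) (hbU : b ∉ U) :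
    (frontier U ∩ C).Nonempty := by
  by_contra hcon
  have h1 : ∀ z ∈ C, z ∉ frontier U := fun z hz hf => hcon ⟨z, hf, hz⟩
  have h2 : ∀ z ∈ C, z ∉ U → z ∈ (closure U)ᶜ := by
    intro z hz hzU hcl
    exact h1 z hz (by rw [hU.frontier_eq]; exact ⟨hcl, hzU⟩)
  obtain ⟨z, -, hz1, hz2⟩ := hC U (closure U)ᶜ hU isClosed_closure.isOpen_compl (fun z hz => by
    by_cases h : z ∈ U
    · exact Or.inl h
    · exact Or.inr (h2 z hz h)) ⟨a, ha, haU⟩ ⟨b, hb, h2 b hb hbU⟩
  exact hz2 (subset_closure hz1)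

theorem dimtH_KS : dimtH KS = ⊤ := by
  classical
  unfold dimtH
  rw [if_neg (not_isEmpty_of_nonempty KS)]
  simp only [iInf_eq_top]
  rintro d ⟨-, B, hB, hBd⟩
  exfalso
  set B0 : Set (Set KS) := countableBasis KS with hB0
  have hc : B0.Countable := countable_countableBasis KS
  have hb0 : IsTopologicalBasis B0 := isBasis_countableBasis KS
  have : Countable B0 := hc.to_subtype
  set Uf : B0 × B0 → Set KS := fun i =>
    if h : ∃ U ∈ B, i.1.1 ⊆ U ∧ U ⊆ i.2.1 then h.choose else ∅ with hUf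
  have hdim : dimH (⋃ i, frontier (Uf i)) ≤ ENNReal.ofReal (d - 1) := by
    rw [dimH_iUnion]
    refine iSup_le fun i => ?_
    by_cases h : ∃ U ∈ B, i.1.1 ⊆ U ∧ U ⊆ i.2.1
    · have h1 : Uf i = h.choose := by simp only [hUf, dif_pos h]
      rw [h1]
      have h2 := hBd _ h.choose_spec.1
      by_cases h3 : frontier h.choose = ∅
      · rw [h3, dimH_empty]
        exact zero_le
      · unfold dimHE at h2
        rw [if_neg h3] at h2
        exact toENNReal_bound h2
    · have h1 : Uf i = ∅ := by simp only [hUf, dif_neg h]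
      rw [h1, frontier_empty, dimH_empty]
      exact zero_le
  have htop : dimH (⋃ i, frontier (Uf i)) = ⊤ := by
    refine dimH_transversal fun x => ?_
    obtain ⟨a, ha, b, hb, hab⟩ := nontrivial_Gam x
    obtain ⟨V2, hV2, haV2, hV2b⟩ := hb0.exists_subset_of_mem_open
      (show a ∈ ({b} : Set KS)ᶜ from hab) isOpen_compl_singleton
    obtain ⟨U, hU, haU, hUV⟩ := hB.exists_subset_of_mem_open haV2 (hb0.isOpen hV2)
    obtain ⟨V1, hV1, haV1, hV1U⟩ := hb0.exists_subset_of_mem_open haU (hB.isOpen hU)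
    have h : ∃ U ∈ B, V1 ⊆ U ∧ U ⊆ V2 := ⟨U, hU, hV1U, hUV⟩
    have h1 : Uf (⟨V1, hV1⟩, ⟨V2, hV2⟩) = h.choose := by simp only [hUf, dif_pos h]
    obtain ⟨hc1, hc2, hc3⟩ := h.choose_spec
    obtain ⟨z, hz1, hz2⟩ := frontier_meets (isPreconnected_Gam x) (hB.isOpen hc1) ha hb
      (hc2 haV1) (fun hbU => hV2b (hc3 hbU) rfl)
    exact ⟨z, Set.mem_iUnion.2 ⟨_, by rw [h1]; exact hz1⟩, hz2⟩
  rw [htop, top_le_iff] at hdim
  exact ENNReal.ofReal_ne_top hdim

theorem no_family {K : Type} [MetricSpace K]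
    (h : ∀ F : Set (Set K), (∀ C ∈ F, IsNondegContinuum C) → F.PairwiseDisjoint id → F.Countable)
    {c : ℝ} (hc : 1 < c) : ¬ HasFamily K c := by
  classical
  rintro ⟨F, hF, hd, hS⟩
  have hcount := h F hF hd
  have hFc : Countable F := hcount.to_subtype
  choose g hg using fun C : F => (hF C C.2).2.1.nonempty
  have h1 := hS (Set.range g) fun C hC => ⟨g ⟨C, hC⟩, ⟨⟨C, hC⟩, rfl⟩, hg ⟨C, hC⟩⟩
  have h2 : (Set.range g).Countable := Set.countable_range g
  unfold dimHE at h1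
  have h3 : (0 : EReal) < ((c - 1 : ℝ) : EReal) := by
    have : (0 : ℝ) < c - 1 := by linarith
    exact_mod_cast this
  split_ifs at h1 with h4
  · have h5 := h3.trans_le h1
    have h6 : ((-1 : ℝ) : EReal) < ((0 : ℝ) : EReal) := by
      rw [EReal.coe_lt_coe_iff]
      norm_num
    have h7 : ((-1 : ℝ) : EReal) = -1 := by
      rw [EReal.coe_neg, EReal.coe_one]
    rw [h7, EReal.coe_zero] at h6
    exact absurd (h5.trans h6) (lt_irrefl _)
  · rw [h2.dimH_zero] at h1
    exact absurd (h3.trans_le h1) (by simp)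

theorem main : ¬ Q1 ∧ ∃ (K : Type) (_ : MetricSpace K), CompactSpace K ∧ ConnectedSpace K ∧
    dimtH K = ⊤ ∧
    (∀ F : Set (Set K), (∀ C ∈ F, IsNondegContinuum C) → F.PairwiseDisjoint id → F.Countable) ∧
    ∀ c : ℝ, 1 < c → ¬ HasFamily K c := by
  have h : ∀ F : Set (Set KS), (∀ C ∈ F, IsNondegContinuum C) → F.PairwiseDisjoint id →
      F.Countable := fun F hF hd =>
    countable_family (fun C hC => ⟨(hF C hC).1, (hF C hC).2.1.isPreconnected, (hF C hC).2.2⟩) hd
  refine ⟨fun hQ => ?_, KS, inferInstance, inferInstance, connected_KS, dimtH_KS, h,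
    fun c hc => no_family h hc⟩
  have h1 := (hQ KS 2).1 (by rw [dimtH_KS]; exact le_top)
  exact no_family h (by norm_num) h1

end Pool.Agent.K7.H82.SU
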