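import Pool.Agent.K7.H82.SU.Port

/-!
# Sets of points which cross no cell
-/

set_option autoImplicit false

namespace Pool.Agent.K7.H82.SU

open Step Filter

/-- Points: coherent sequences of vertices. -/
def Pt : Type := {p : ℕ → V // ∀ m, Mem m (p m) ∧ pr (p (m + 1)) = p m}

theorem Pt.mem (p : Pt) (m : ℕ) : Mem m (p.1 m) := (p.2 m).1
theorem Pt.pr (p : Pt) (m : ℕ) : SU.pr (p.1 (m + 1)) = p.1 m := (p.2 m).2

theorem Pt.iter (p : Pt) (k m : ℕ) : SU.pr^[k] (p.1 (m + k)) = p.1 m := by
  induction k with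
  | zero => rfl
  | succ k ih =>
    rw [Function.iterate_succ_apply, ← Nat.add_assoc, p.pr, ih]

theorem Mem.cons_inv {m : ℕ} {st : Step} {v : V} (h : Mem m (st :: v)) :
    ∃ r, Val st ∧ wt st + r = m ∧ Mem r v := by
  cases h with
  | cons hv hr h => exact ⟨_, hv, hr, h⟩

theorem pr1_T {st : Step} (hv : Val st) {st' : Step} {v : V} (h : pr1 st = st' :: v) :
    ∃ t c, st' = T t c := by
  cases st with
  | T t c => simp [pr1] at h
  | R s k =>
    have h1 := pr1_mem_tour (s := s) (k := k) hv
    have h2 := hv.pos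
    simp only [wt] at h2
    obtain ⟨n, hn⟩ : ∃ n, s.length = n + 1 := ⟨s.length - 1, by omega⟩
    cases n with
    | zero =>
      rw [tour_one hn, List.mem_singleton, h] at h1
      simp at h1
    | succ n =>
      rw [tour_two hn, List.mem_append, List.mem_reverse, or_self, h] at h1
      obtain ⟨-, t, c, u, h3⟩ := mem_Tw.1 h1
      simp only [List.cons.injEq] at h3
      exact ⟨t, c, h3.1⟩

/-- The point is in the cell `st`. -/
def InCell (p : Pt) (st : Step) : Prop := ∀ m, wt st ≤ m → ∃ v, p.1 m = st :: v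

theorem head_up (p : Pt) {m : ℕ} {s : List Bool} {k : ℕ} {v : V} (h : p.1 m = R s k :: v) :
    ∃ v', p.1 (m + 1) = R s k :: v' := by
  have h1 := p.pr m
  have h2 := p.mem (m + 1)
  cases hp : p.1 (m + 1) with
  | nil => rw [hp] at h2; exact absurd h2.nil_iff (by omega)
  | cons st u =>
    rw [hp, h] at h1
    rw [hp] at h2
    by_cases hu : u = []
    · subst hu
      cases h2 with
      | cons hv hr h3 =>
        obtain ⟨t, c, h4⟩ := pr1_T hv h1
        simp at h4
    · rw [pr_cons _ hu] at h1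
      simp only [List.cons.injEq] at h1
      exact ⟨u, by rw [h1.1]⟩

theorem head_down (p : Pt) {m : ℕ} {st : Step} {v : V} (h : p.1 (m + 1) = st :: v)
    (hm : wt st ≤ m) : ∃ v', p.1 m = st :: v' := by
  have h1 := p.pr m
  have h2 := p.mem (m + 1)
  rw [h] at h1 h2
  cases h2 with
  | cons hv hr h3 =>
    have hne : v ≠ [] := by
      rintro rfl
      have := h3.nil_iff
      omega
    rw [pr_cons _ hne] at h1
    exact ⟨_, h1.symm⟩

theorem exists_head (p : Pt) (m : ℕ) (hm : 1 ≤ m) : ∃ st v, p.1 m = st :: v ∧ Val st ∧ wt st ≤ m := by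
  have h2 := p.mem m
  cases hp : p.1 m with
  | nil => rw [hp] at h2; exact absurd h2.nil_iff (by omega)
  | cons st u =>
    rw [hp] at h2
    cases h2 with
    | cons hv hr h3 => exact ⟨st, u, rfl, hv, by omega⟩

theorem incell_of_R (p : Pt) {m : ℕ} {s : List Bool} {k : ℕ} {v : V} (h : p.1 m = R s k :: v) :
    InCell p (R s k) := by
  have hup : ∀ n, ∃ v', p.1 (m + n) = R s k :: v' := by
    intro n
    induction n with
    | zero => exact ⟨v, h⟩
    | succ n ih =>
      obtain ⟨v', hv'⟩ := ih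
      exact head_up p hv'
  intro m' hm'
  have hdown : ∀ n, m' ≤ n → n ≤ m' + m → ∃ v', p.1 (m' + m - (n - m')) = R s k :: v' := by
    intro n
    induction n with
    | zero =>
      intro h1 _
      have : m' = 0 := by omega
      subst this
      simpa using hup 0
    | succ n ih =>
      intro h1 h2
      by_cases h3 : m' = n + 1
      · subst h3
        have h4 : n + 1 + m - (n + 1 - (n + 1)) = m + (n + 1) := by omega
        rw [h4]
        exact hup _
      · obtain ⟨v', hv'⟩ := ih (by omega) (by omega)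
        have h4 : m' + m - (n - m') = (m' + m - (n + 1 - m')) + 1 := by omega
        rw [h4] at hv'
        exact head_down p hv' (by omega)
  obtain ⟨v', hv'⟩ := hdown (m' + m) (by omega) le_rfl
  have h4 : m' + m - (m' + m - m') = m' := by omega
  rw [h4] at hv'
  exact ⟨v', hv'⟩

theorem exists_cell (p : Pt) : ∃ st, Val st ∧ InCell p st := by
  by_cases hR : ∃ m s k v, p.1 m = R s k :: v
  · obtain ⟨m, s, k, v, h⟩ := hR
    have h1 : Val (R s k) := by
      have h2 := p.mem m
      rw [h] at h2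
      cases h2 with
      | cons hv hr h3 => exact hv
    exact ⟨R s k, h1, incell_of_R p h⟩
  · have hT : ∀ m, 1 ≤ m → ∃ t c v, p.1 m = T t c :: v := by
      intro m hm
      obtain ⟨st, v, h1, h2, h3⟩ := exists_head p m hm
      cases st with
      | T t c => exact ⟨t, c, v, h1⟩
      | R s k => exact absurd ⟨m, s, k, v, h1⟩ hR
    obtain ⟨t, c, v, h1⟩ := hT 1 le_rfl
    refine ⟨T t c, trivial, ?_⟩
    intro m hm
    simp only [wt] at hm
    obtain ⟨n, rfl⟩ : ∃ n, m = n + 1 := ⟨m - 1, by omega⟩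
    clear hm
    induction n with
    | zero => exact ⟨v, h1⟩
    | succ n ih =>
      obtain ⟨v', hv'⟩ := ih
      obtain ⟨t2, c2, v2, h2⟩ := hT (n + 1 + 1) (by omega)
      obtain ⟨v3, h3⟩ := head_down p h2 (by simp [wt])
      rw [h3] at hv'
      simp only [List.cons.injEq] at hv'
      rw [hv'.1] at h2
      exact ⟨v2, h2⟩

theorem InCell.unique {p : Pt} {st st' : Step} (h : InCell p st) (h' : InCell p st') : st = st' := by
  obtain ⟨v, hv⟩ := h (max (wt st) (wt st')) (le_max_left _ _)
  obtain ⟨v', hv'⟩ := h' (max (wt st) (wt st')) (le_max_right _ _)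
  rw [hv] at hv'
  simp only [List.cons.injEq] at hv'
  exact hv'.1

theorem InCell.low {p q : Pt} {st : Step} (h : InCell p st) (h' : InCell q st) {m : ℕ}
    (hm : m ≤ wt st) : p.1 m = q.1 m := by
  have h1 : p.1 (wt st) = q.1 (wt st) := by
    obtain ⟨v, hv⟩ := h (wt st) le_rfl
    obtain ⟨v', hv'⟩ := h' (wt st) le_rfl
    have h2 := p.mem (wt st)
    have h3 := q.mem (wt st)
    rw [hv] at h2
    rw [hv'] at h3
    obtain ⟨r, -, hr, h2⟩ := h2.cons_inv
    obtain ⟨r', -, hr', h3⟩ := h3.cons_inv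
    have : r = 0 := by omega
    subst this
    have : r' = 0 := by omega
    subst this
    rw [hv, hv', h2.zero, h3.zero]
  have h2 := p.iter (wt st - m) m
  have h3 := q.iter (wt st - m) m
  rw [show m + (wt st - m) = wt st by omega] at h2 h3
  rw [← h2, ← h3, h1]

/-- Removal of the first step. -/
theorem InCell.uncons {p : Pt} {st : Step} (h : InCell p st) :
    ∃ q : Pt, ∀ r, p.1 (wt st + r) = st :: q.1 r := by
  choose v hv using fun r => h (wt st + r) (by omega)
  have hmem : ∀ r, Mem r (v r) := by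
    intro r
    have h2 := p.mem (wt st + r)
    rw [hv] at h2
    obtain ⟨r', -, hr, h2⟩ := h2.cons_inv
    have : r' = r := by omega
    rwa [this] at h2
  refine ⟨⟨v, fun m => ⟨hmem m, ?_⟩⟩, hv⟩
  have h1 := p.pr (wt st + m)
  have h2 := hv (m + 1)
  rw [← Nat.add_assoc] at h2
  rw [h2, hv, pr_cons _ (hmem (m + 1)).ne_nil] at h1
  simp only [List.cons.injEq, true_and] at h1
  exact h1

/-- The vertices of level `m` of a set of points. -/
def Tr (C : Set Pt) (m : ℕ) : Set V := (fun p : Pt => p.1 m) '' C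

theorem mem_Tr {C : Set Pt} {p : Pt} (hp : p ∈ C) (m : ℕ) : p.1 m ∈ Tr C m := ⟨p, hp, rfl⟩

theorem Tr_mem {C : Set Pt} {m : ℕ} {v : V} (h : v ∈ Tr C m) : Mem m v := by
  obtain ⟨p, -, rfl⟩ := h
  exact p.mem m

theorem Tr_pr {C : Set Pt} {m : ℕ} {v : V} (h : v ∈ Tr C (m + 1)) : SU.pr v ∈ Tr C m := by
  obtain ⟨p, hp, rfl⟩ := h
  exact ⟨p, hp, (p.pr m).symm⟩

/-- The traces of `C` are connected. -/
def TC (C : Set Pt) : Prop := ∀ M, ∀ p ∈ C, ∀ q ∈ C, Conn M (Tr C M) (p.1 M) (q.1 M)

/-- `C` crosses no cell. -/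
def NCr (C : Set Pt) : Prop := ∀ n v, Mem n v → ∃ r, ¬ Crs r (sub (Tr C (n + r)) v)

theorem Crs_sub_pr {C : Set Pt} {n r : ℕ} {v : V} (h : Crs (r + 1) (sub (Tr C (n + (r + 1))) v)) :
    Crs r (sub (Tr C (n + r)) v) := by
  refine h.pr fun u hu hD => ?_
  have h1 := Tr_pr (m := n + r) hD
  rwa [pr_append v hu.ne_nil] at h1

theorem NCr.eventually {C : Set Pt} (h : NCr C) (n : ℕ) : ∀ᶠ M in atTop, NC n M (Tr C M) := by
  have h1 : ∀ j v, Mem j v → ∀ᶠ M in atTop, ¬ Crs (M - j) (sub (Tr C M) v) := by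
    intro j v hv
    obtain ⟨r, hr⟩ := h j v hv
    rw [eventually_atTop]
    refine ⟨j + r, fun M hM => ?_⟩
    obtain ⟨k, rfl⟩ : ∃ k, M = j + (r + k) := ⟨M - (j + r), by omega⟩
    clear hM
    rw [Nat.add_sub_cancel_left]
    induction k with
    | zero => exact hr
    | succ k ih => exact fun hcon => ih (Crs_sub_pr hcon)
  have h2 : ∀ j ∈ Finset.range (n + 1), ∀ᶠ M in atTop, ∀ v, Mem j v →
      ¬ Crs (M - j) (sub (Tr C M) v) := by
    intro j _
    have h3 := (finite_mem j).eventually_all (l := atTop)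
      (p := fun v M => ¬ Crs (M - j) (sub (Tr C M) v))
    exact h3.2 fun v hv => h1 j v hv
  have h4 := (Finset.range (n + 1)).eventually_all (l := atTop)
      (p := fun j M => ∀ v, Mem j v → ¬ Crs (M - j) (sub (Tr C M) v))
  refine (h4.2 h2).mono fun M hM j hj v hv => ?_
  exact hM j (Finset.mem_range.2 (by omega)) v hv

theorem exists_exit {α : Type} {r : α → α → Prop} {P : α → Prop} {a b : α}
    (h : Relation.ReflTransGen r a b) (ha : P a) (hb : ¬ P b) : ∃ c d, r c d ∧ P c ∧ ¬ P d := by
  induction h with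
  | refl => exact absurd ha hb
  | @tail c d _ hcd ih =>
    by_cases hc : P c
    · exact ⟨c, d, hcd, hc, hb⟩
    · exact ih hc

/-- A set of points with connected traces which crosses no cell has small traces. -/
theorem key (m : ℕ) : ∀ C : Set Pt, TC C → NCr C → ∀ p ∈ C, ∀ q ∈ C, E m (p.1 m) (q.1 m) := by
  induction m using Nat.strong_induction_on with
  | _ m ih =>
  intro C hTC hNC p hp q hq
  by_cases hall : ∃ st, Val st ∧ ∀ p ∈ C, InCell p st
  · obtain ⟨st, hv, hin⟩ := hall
    by_cases hm : m ≤ wt st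
    · exact Or.inl ((hin p hp).low (hin q hq) hm)
    · obtain ⟨m', rfl⟩ : ∃ m', m = wt st + m' := ⟨m - wt st, by omega⟩
      have hpos := hv.pos
      set C' : Set Pt := {q : Pt | ∃ p ∈ C, ∀ r, p.1 (wt st + r) = st :: q.1 r} with hC'
      have hTr : ∀ r u, st :: u ∈ Tr C (wt st + r) → u ∈ Tr C' r := by
        rintro r u ⟨p1, hp1, h1⟩
        obtain ⟨q1, hq1⟩ := (hin p1 hp1).uncons
        simp only at h1
        rw [hq1 r] at h1
        simp only [List.cons.injEq, true_and] at h1
        exact ⟨q1, ⟨p1, hp1, hq1⟩, h1⟩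
      have hTr2 : ∀ r u, u ∈ Tr C' r → st :: u ∈ Tr C (wt st + r) := by
        rintro r u ⟨q1, ⟨p1, hp1, h1⟩, rfl⟩
        exact ⟨p1, hp1, h1 r⟩
      have hhead : ∀ r u, u ∈ Tr C (wt st + r) → ∃ u', u = st :: u' := by
        rintro r u ⟨p1, hp1, rfl⟩
        exact hin p1 hp1 _ (by omega)
      have hTC' : TC C' := by
        rintro r q1 ⟨p1, hp1, h1⟩ q2 ⟨p2, hp2, h2⟩
        have h3 := hTC (wt st + r) p1 hp1 p2 hp2
        rw [h1 r, h2 r] at h3
        have h4 : ∀ w, Conn (wt st + r) (Tr C (wt st + r)) (st :: q1.1 r) w →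
            ∀ w', w = st :: w' → Conn r (Tr C' r) (q1.1 r) w' := by
          intro w hw
          induction hw with
          | refl =>
            intro w' hw'
            simp only [List.cons.injEq, true_and] at hw'
            rw [hw']
            exact Relation.ReflTransGen.refl
          | @tail b c _ hbc ihw =>
            intro w' hw'
            subst hw'
            obtain ⟨hadj, hb, hc⟩ := hbc
            obtain ⟨b', rfl⟩ := hhead r b hb
            have h5 := ihw b' rfl
            rcases hadj.step with ⟨r1, w2, hr, -, he, ha⟩ | ⟨r1, y1, st2, r2, y2, hnx, hr, hr2, -, he⟩ |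
              ⟨r1, y1, st2, r2, y2, hnx, hr, -, -, he⟩
            · simp only [List.cons.injEq, true_and] at he
              subst he
              have : r1 = r := by omega
              subst this
              exact h5.tail ⟨ha, hTr _ _ hb, hTr _ _ hc⟩
            · simp only [List.cons.injEq] at he
              exact absurd he.1 hnx.ne
            · simp only [List.cons.injEq] at he
              exact absurd he.1.symm hnx.ne
        exact h4 _ h3 _ rfl
      have hNC' : NCr C' := by
        intro n v hmv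
        obtain ⟨r, hr⟩ := hNC (wt st + n) (st :: v) (Mem.cons hv rfl hmv)
        refine ⟨r, fun hcon => hr ?_⟩
        have hsub : sub (Tr C' (n + r)) v ⊆ sub (Tr C (wt st + n + r)) (st :: v) := by
          intro u hu
          have h1 := hTr2 (n + r) _ hu
          rw [← Nat.add_assoc] at h1
          exact h1
        obtain ⟨y, z, hy, hz, hc⟩ := hcon
        exact ⟨y, z, hsub hy, hsub hz, hc.mono hsub⟩
      obtain ⟨p', hp'⟩ := (hin p hp).uncons
      obtain ⟨q', hq'⟩ := (hin q hq).uncons
      rw [hp' m', hq' m']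
      exact E.cell hv rfl (ih m' (by omega) C' hTC' hNC' p' ⟨p, hp, hp'⟩ q' ⟨q, hq, hq'⟩)
  · -- at least two cells
    obtain ⟨p0, hp0, st0, hv0, hin0, hcase⟩ : ∃ p0 ∈ C, ∃ st0, Val st0 ∧ InCell p0 st0 ∧
        ((∃ s k, st0 = R s k) ∨ ∀ p ∈ C, ∀ st, InCell p st → ∃ t c, st = T t c) := by
      by_cases hR : ∃ p0 ∈ C, ∃ s k, Val (R s k) ∧ InCell p0 (R s k)
      · obtain ⟨p0, hp0, s, k, h1, h2⟩ := hR
        exact ⟨p0, hp0, _, h1, h2, Or.inl ⟨s, k, rfl⟩⟩
      · obtain ⟨st, h1, h2⟩ := exists_cell p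
        refine ⟨p, hp, st, h1, h2, Or.inr ?_⟩
        intro p1 hp1 st1 hst1
        obtain ⟨st2, h3, h4⟩ := exists_cell p1
        have h5 := h4.unique hst1
        subst h5
        cases st2 with
        | T t c => exact ⟨t, c, rfl⟩
        | R s k => exact absurd ⟨p1, hp1, s, k, h3, h4⟩ hR
    obtain ⟨q0, hq0, hnq0⟩ : ∃ q0 ∈ C, ¬ InCell q0 st0 := by
      by_contra hcon
      push Not at hcon
      exact hall ⟨st0, hv0, hcon⟩
    obtain ⟨st1, hv1, hin1⟩ := exists_cell q0
    have hne : st1 ≠ st0 := by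
      rintro rfl
      exact hnq0 hin1
    set n : ℕ := max m (wt st0 + 2) with hn
    have hmn : m ≤ n := le_max_left _ _
    have hwn : wt st0 + 2 ≤ n := le_max_right _ _
    obtain ⟨M, hM1, hM2, hM3⟩ := ((hNC.eventually n).and
      ((eventually_gt_atTop n).and (eventually_ge_atTop (wt st1)))).exists
    have hpM := hin0 M (by omega)
    have hqM := hin1 M hM3
    obtain ⟨a, ha⟩ := hpM
    obtain ⟨b, hb⟩ := hqM
    have hcon := hTC M p0 hp0 q0 hq0
    rw [ha, hb] at hcon
    obtain ⟨e1, e2, ⟨hadj, he1, he2⟩, ⟨e1', rfl⟩, hnP⟩ := exists_exit (P := fun w => ∃ w', w = st0 :: w')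
      hcon ⟨a, rfl⟩ (by
        rintro ⟨w', hw'⟩
        simp only [List.cons.injEq] at hw'
        exact hne hw'.1)
    have hall2 : ∀ w ∈ Tr C M, ∀ u ∈ Tr C M, Conn M (Tr C M) w u := by
      rintro _ ⟨p1, hp1, rfl⟩ _ ⟨q1, hq1, rfl⟩
      exact hTC M p1 hp1 q1 hq1
    -- the junction
    obtain ⟨sa, ya, sb, yb, hnx, hwa, hwb, hDa⟩ : ∃ sa ya sb yb, Nxt M sa ya sb yb ∧ wt sa ≤ n ∧
        wt sb ≤ n ∧ sa :: B (M - wt sa) ya ∈ Tr C M := by
      rcases hadj.step with ⟨r1, w2, hr, -, rfl, ha⟩ | ⟨r1, y1, st', r', y', hnx, hr, hr', rfl, rfl⟩ |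
        ⟨r1, y1, st', r', y', hnx, hr, hr', rfl, rfl⟩
      · exact absurd ⟨_, rfl⟩ hnP
      · refine ⟨st0, y1, st', y', hnx, by omega, ?_, ?_⟩
        · cases hnx with
          | c1 _ h hk => simp only [wt] at hwn ⊢; omega
          | c2 _ h hk =>
            simp only [wt, List.length_append, List.length_singleton] at hwn ⊢
            omega
          | c3 _ h hk => simp only [wt] at hwn ⊢; omega
          | c4 _ _ _ => simp only [wt] at hwn ⊢; omega
          | c5 _ _ _ => simp only [wt] at hwn ⊢; omega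
        · have : M - wt st0 = r1 := by omega
          rw [this]
          exact he1
      · refine ⟨st', y', st0, y1, hnx, ?_, by omega, ?_⟩
        · cases hnx with
          | c1 _ h hk => simp only [wt] at hwn ⊢; omega
          | c2 _ h hk =>
            simp only [wt, List.length_append, List.length_singleton] at hwn ⊢
            omega
          | @c3 s k _ h hk =>
            exfalso
            rcases hcase with ⟨s', k', h'⟩ | hcase
            · simp at h'
            · obtain ⟨p1, hp1, h1⟩ := he2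
              simp only at h1
              obtain ⟨t, c, h2⟩ := hcase p1 hp1 _ (incell_of_R p1 h1)
              simp at h2
          | c4 _ _ _ => simp only [wt] at hwn ⊢; omega
          | c5 _ _ _ => simp only [wt] at hwn ⊢; omega
        · have : M - wt st' = r' := by omega
          rw [this]
          exact he2
    obtain ⟨hva, hvb, -, -⟩ := hnx.val
    have hconf := fun w hw => confine (w := w) hM2 (by omega) hM1 hnx hwa hwb hDa (hall2 _ hDa w hw)
    have hmu : Mem n (sa :: B (n - wt sa) ya) := Mem.cons hva (by omega) (mem_B _ _)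
    have hmw : Mem n (sb :: A (n - wt sb) yb) := Mem.cons hvb (by omega) (mem_A _ _)
    have hpt : ∀ p1 ∈ C, p1.1 n = sa :: B (n - wt sa) ya ∨ p1.1 n = sb :: A (n - wt sb) yb := by
      intro p1 hp1
      have h1 := p1.iter (M - n) n
      rw [show n + (M - n) = M by omega] at h1
      have h2 := p1.mem M
      rcases hconf _ (mem_Tr hp1 M) with ⟨w', hw'⟩ | ⟨w', hw'⟩
      · left
        rw [hw'] at h1 h2
        obtain ⟨k, hk, hmk⟩ := Mem.of_append hmu h2
        rw [← h1]
        exact pr_iter _ _ (by rwa [show M - n = k by omega])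
      · right
        rw [hw'] at h1 h2
        obtain ⟨k, hk, hmk⟩ := Mem.of_append hmw h2
        rw [← h1]
        exact pr_iter _ _ (by rwa [show M - n = k by omega])
    have hEn : Nx n (sa :: B (n - wt sa) ya) (sb :: A (n - wt sb) yb) :=
      Nx.port (hnx.lower hM2 hwa hwb) (by omega) (by omega)
    have hfin : E n (p.1 n) (q.1 n) := by
      rcases hpt p hp with h1 | h1 <;> rcases hpt q hq with h2 | h2 <;> rw [h1, h2]
      · exact E.rfl
      · exact Or.inr (Or.inl hEn)
      · exact Or.inr (Or.inr hEn)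
      · exact E.rfl
    have h1 := p.iter (n - m) m
    have h2 := q.iter (n - m) m
    rw [show m + (n - m) = n by omega] at h1 h2
    rw [← h1, ← h2]
    refine E.iter (n - m) ?_
    rwa [show m + (n - m) = n by omega]

end Pool.Agent.K7.H82.SU
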