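import Pool.Agent.K7.H82.SU.Proj

/-!
# Connected sets of vertices which cross no cell
-/

set_option autoImplicit false

namespace Pool.Agent.K7.H82.SU

open Step

/-- Adjacent vertices. -/
def Adj (m : ℕ) (u v : V) : Prop := Nx m u v ∨ Nx m v u

theorem Adj.symm {m : ℕ} {u v : V} (h : Adj m u v) : Adj m v u := Or.symm h

theorem Adj.mem {m : ℕ} {u v : V} (h : Adj m u v) : Mem m u ∧ Mem m v := by
  rcases h with h | h
  · exact h.mem
  · exact h.mem.symm

/-- Joined by a walk in `D`. -/
def Conn (m : ℕ) (D : Set V) (u v : V) : Prop :=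
  Relation.ReflTransGen (fun a b => Adj m a b ∧ a ∈ D ∧ b ∈ D) u v

theorem Conn.symm {m : ℕ} {D : Set V} {u v : V} (h : Conn m D u v) : Conn m D v u := by
  induction h with
  | refl => exact Relation.ReflTransGen.refl
  | tail _ hbc ih => exact Relation.ReflTransGen.head ⟨hbc.1.symm, hbc.2.2, hbc.2.1⟩ ih

theorem Conn.trans {m : ℕ} {D : Set V} {u v w : V} (h : Conn m D u v) (h' : Conn m D v w) :
    Conn m D u w := Relation.ReflTransGen.trans h h'

theorem Conn.mono {m : ℕ} {D D' : Set V} (hD : D ⊆ D') {u v : V} (h : Conn m D u v) :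
    Conn m D' u v := by
  induction h with
  | refl => exact Relation.ReflTransGen.refl
  | tail _ hbc ih => exact Relation.ReflTransGen.tail ih ⟨hbc.1, hD hbc.2.1, hD hbc.2.2⟩

theorem Conn.of_E {m : ℕ} {D : Set V} {u v : V} (h : E m u v) (hu : u ∈ D) (hv : v ∈ D) :
    Conn m D u v := by
  rcases h with rfl | h | h
  · exact Relation.ReflTransGen.refl
  · exact Relation.ReflTransGen.single ⟨Or.inl h, hu, hv⟩
  · exact Relation.ReflTransGen.single ⟨Or.inr h, hu, hv⟩

/-- `D` crosses the cell of level `r`. -/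
def Crs (r : ℕ) (D : Set V) : Prop := ∃ y z, A r y ∈ D ∧ B r z ∈ D ∧ Conn r D (A r y) (B r z)

/-- The part of `D` in the cell `v`. -/
def sub (D : Set V) (v : V) : Set V := {u | v ++ u ∈ D}

theorem sub_sub (D : Set V) (v w : V) : sub (sub D v) w = sub D (v ++ w) := by
  ext u
  simp [sub]

/-- No cell of level at most `n` is crossed. -/
def NC (n M : ℕ) (D : Set V) : Prop := ∀ j ≤ n, ∀ v, Mem j v → ¬ Crs (M - j) (sub D v)

theorem NC.sub {n M : ℕ} {D : Set V} (h : NC n M D) {st : Step} (hv : Val st) (hw : wt st ≤ n) :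
    NC (n - wt st) (M - wt st) (SU.sub D [st]) := by
  intro j hj v hm
  have h1 := h (wt st + j) (by omega) (st :: v) (Mem.cons hv rfl hm)
  rw [sub_sub]
  rwa [Nat.sub_sub]

theorem NC.cell {n M : ℕ} {D : Set V} (h : NC n M D) {st : Step} (hv : Val st) (hw : wt st ≤ n) :
    ¬ Crs (M - wt st) (SU.sub D [st]) :=
  h (wt st) hw [st] (Mem.cons hv (by omega) Mem.nil)

theorem Adj.step {M : ℕ} {st : Step} {w w2 : V} (h : Adj M (st :: w) w2) :
    (∃ r w2', wt st + r = M ∧ Val st ∧ w2 = st :: w2' ∧ Adj r w w2') ∨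
    (∃ r y st' r' y', Nxt M st y st' y' ∧ wt st + r = M ∧ wt st' + r' = M ∧ w = B r y ∧
      w2 = st' :: A r' y') ∨
    (∃ r y st' r' y', Nxt M st' y' st y ∧ wt st + r = M ∧ wt st' + r' = M ∧ w = A r y ∧
      w2 = st' :: B r' y') := by
  rcases h with h | h
  · cases h with
    | cell hv hr h => exact Or.inl ⟨_, _, hr, hv, rfl, Or.inl h⟩
    | port h hr hr' => exact Or.inr (Or.inl ⟨_, _, _, _, _, h, hr, hr', rfl, rfl⟩)
  · cases h with
    | cell hv hr h => exact Or.inl ⟨_, _, hr, hv, rfl, Or.inr h⟩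
    | port h hr hr' => exact Or.inr (Or.inr ⟨_, _, _, _, _, h, hr', hr, rfl, rfl⟩)

theorem stay_B {r : ℕ} {D : Set V} {c : Bool} {y : X} {w : V}
    (h : Conn (r + 1) D (T 2 c :: B r y) w) (hD : T 2 c :: B r y ∈ D)
    (hnc : ¬ Crs r (sub D [T 2 c])) :
    ∃ w', w = T 2 c :: w' ∧ Conn r (sub D [T 2 c]) (B r y) w' := by
  induction h with
  | refl => exact ⟨_, rfl, Relation.ReflTransGen.refl⟩
  | tail _ hbc ih =>
    obtain ⟨w', rfl, hc⟩ := ih
    obtain ⟨hadj, h1, h2⟩ := hbc
    rcases hadj.step with ⟨r1, w2, hr, -, rfl, ha⟩ | ⟨r1, y1, st', r', y', hn, -⟩ |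
      ⟨r1, y1, st', r', y', hn, hr, -, rfl, -⟩
    · simp only [wt] at hr
      have : r1 = r := by omega
      subst this
      exact ⟨_, rfl, hc.tail ⟨ha, h1, h2⟩⟩
    · cases hn
    · simp only [wt] at hr
      have : r1 = r := by omega
      subst this
      exact absurd ⟨_, _, h1, hD, hc.symm⟩ hnc

theorem stay_A {r : ℕ} {D : Set V} {b : Bool} {y : X} {w : V}
    (h : Conn (r + 1) D (R [b] 0 :: A r y) w) (hD : R [b] 0 :: A r y ∈ D)
    (hnc : ¬ Crs r (sub D [R [b] 0])) :
    ∃ w', w = R [b] 0 :: w' ∧ Conn r (sub D [R [b] 0]) (A r y) w' := by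
  induction h with
  | refl => exact ⟨_, rfl, Relation.ReflTransGen.refl⟩
  | tail _ hbc ih =>
    obtain ⟨w', rfl, hc⟩ := ih
    obtain ⟨hadj, h1, h2⟩ := hbc
    rcases hadj.step with ⟨r1, w2, hr, -, rfl, ha⟩ | ⟨r1, y1, st', r', y', hn, hr, -, rfl, -⟩ |
      ⟨r1, y1, st', r', y', hn, -⟩
    · simp only [wt, List.length_singleton] at hr
      have : r1 = r := by omega
      subst this
      exact ⟨_, rfl, hc.tail ⟨ha, h1, h2⟩⟩
    · simp only [wt, List.length_singleton] at hr
      have : r1 = r := by omega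
      subst this
      exact absurd ⟨_, _, hD, h1, hc⟩ hnc
    · exfalso
      generalize hst : R [b] 0 = st0 at hn
      cases hn with
      | c1 y h hk => simp at hst
      | @c2 s k y h hk =>
        simp only [R.injEq, and_true] at hst
        have h3 : s = [] := by
          have := congrArg List.length hst
          simp at this
          exact this
        subst h3
        simp [K] at hk
      | c3 y h hk => simp at hst
      | c4 hm c y => simp at hst
      | c5 hm c y => simp at hst

theorem port_B (l : ℕ) : ∀ {r : ℕ} {D : Set V} {z : X} {w : V}, l ≤ r → NC l r D → B r z ∈ D →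
    Conn r D (B r z) w → ∃ w', w = B l z ++ w' := by
  induction l with
  | zero => intro r D z w _ _ _ _; exact ⟨w, rfl⟩
  | succ l ih =>
    intro r D z w hl hnc hD h
    obtain ⟨r, rfl⟩ : ∃ r', r = r' + 1 := ⟨r - 1, by omega⟩
    obtain ⟨w1, rfl, h1⟩ := stay_B h hD (hnc.cell (st := T 2 (z 0)) trivial (by simp [wt]))
    have h2 : NC l r (sub D [T 2 (z 0)]) := by
      simpa [wt] using hnc.sub (st := T 2 (z 0)) trivial (by simp [wt])
    obtain ⟨w', rfl⟩ := ih (by omega) h2 hD h1
    exact ⟨w', rfl⟩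

theorem port_A (l : ℕ) : ∀ {r : ℕ} {D : Set V} {z : X} {w : V}, l ≤ r → NC l r D → A r z ∈ D →
    Conn r D (A r z) w → ∃ w', w = A l z ++ w' := by
  induction l with
  | zero => intro r D z w _ _ _ _; exact ⟨w, rfl⟩
  | succ l ih =>
    intro r D z w hl hnc hD h
    obtain ⟨r, rfl⟩ : ∃ r', r = r' + 1 := ⟨r - 1, by omega⟩
    have hv : Val (R [z 0] 0) := by simp [Val, K]
    obtain ⟨w1, rfl, h1⟩ := stay_A h hD (hnc.cell (st := R [z 0] 0) hv (by simp [wt]))
    have h2 : NC l r (sub D [R [z 0] 0]) := by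
      simpa [wt] using hnc.sub (st := R [z 0] 0) hv (by simp [wt])
    obtain ⟨w', rfl⟩ := ih (by omega) h2 hD h1
    exact ⟨w', rfl⟩

theorem B_pre (l : ℕ) : ∀ {r : ℕ} {x z : X} {w : V}, l ≤ r → B r x = B l z ++ w → Ag l z x := by
  induction l with
  | zero => intro r x z w _ _ i hi; omega
  | succ l ih =>
    intro r x z w hl h
    obtain ⟨r, rfl⟩ : ∃ r', r = r' + 1 := ⟨r - 1, by omega⟩
    simp only [B, List.cons_append, List.cons.injEq, T.injEq, true_and] at h
    intro i hi
    cases i with
    | zero => exact h.1.symm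
    | succ i => exact ih (by omega) h.2 i (by omega)

theorem A_pre (l : ℕ) : ∀ {r : ℕ} {x z : X} {w : V}, l ≤ r → A r x = A l z ++ w → Ag l z x := by
  induction l with
  | zero => intro r x z w _ _ i hi; omega
  | succ l ih =>
    intro r x z w hl h
    obtain ⟨r, rfl⟩ : ∃ r', r = r' + 1 := ⟨r - 1, by omega⟩
    simp only [A, List.cons_append, List.cons.injEq, R.injEq, and_true] at h
    intro i hi
    cases i with
    | zero => exact h.1.symm
    | succ i => exact ih (by omega) h.2 i (by omega)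

theorem match_f {M n : ℕ} {st st' st2 : Step} {y y' z z2 : X} (h : Nxt M st y st' y')
    (h2 : Nxt M st z st2 z2) (hn : n < M) (h2n : 2 ≤ n) (hw : wt st ≤ n) (hw' : wt st' ≤ n)
    (hag : Ag (n - wt st) y z) : st2 = st' ∧ Ag (n - wt st') y' z2 := by
  cases h with
  | @c1 s k y h hk =>
    cases h2 with
    | c1 _ h' hk' => exact ⟨rfl, hag⟩
    | c2 _ h' hk' => omega
    | c3 _ h' hk' => simp only [wt] at hw; omega
  | @c2 s k y h hk =>
    simp only [wt, List.length_append, List.length_singleton] at hw hw' hag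
    cases h2 with
    | c1 _ h' hk' => omega
    | c2 _ h' hk' =>
      rw [hag 0 (by omega)]
      refine ⟨rfl, ?_⟩
      simp only [wt, List.length_append, List.length_singleton]
      intro i hi
      exact hag (i + 1) (by omega)
    | c3 _ h' hk' => omega
  | @c3 s k y h hk => simp only [wt] at hw; omega
  | c4 hm c y =>
    simp only [wt] at hw hw' hag
    cases h2 with
    | c4 _ _ _ =>
      rw [hag 0 (by omega)]
      exact ⟨rfl, hag⟩
  | c5 hm c y =>
    simp only [wt] at hw hw' hag
    cases h2 with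
    | c5 _ _ _ =>
      rw [hag 0 (by omega)]
      refine ⟨rfl, ?_⟩
      simp only [wt]
      intro i hi
      cases i with
      | zero => rfl
      | succ i => exact hag (i + 1) (by omega)

theorem match_b {M n : ℕ} {st st' st2 : Step} {y y' z z2 : X} (h : Nxt M st y st' y')
    (h2 : Nxt M st2 z2 st' z) (hn : n < M) (h2n : 2 ≤ n) (hw : wt st ≤ n) (hw' : wt st' ≤ n)
    (hag : Ag (n - wt st') y' z) : st2 = st ∧ Ag (n - wt st) y z2 := by
  cases h with
  | @c1 s k y h hk =>
    cases h2 with
    | c1 _ h' hk' => exact ⟨rfl, hag⟩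
  | @c2 s k y h hk =>
    simp only [wt, List.length_append, List.length_singleton] at hw hw' hag
    generalize hst : R (s ++ [y 0]) 0 = st0 at h2
    cases h2 with
    | c1 _ h' hk' => simp at hst
    | @c2 s2 k2 _ h' hk' =>
      simp only [R.injEq, and_true] at hst
      have h3 := List.append_inj' hst (by simp)
      obtain ⟨h4, h5⟩ := h3
      simp only [List.cons.injEq, and_true] at h5
      subst h4
      have h6 : k2 = k := by omega
      subst h6
      refine ⟨rfl, ?_⟩
      simp only [wt]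
      intro i hi
      cases i with
      | zero => exact h5
      | succ i => exact hag i (by omega)
    | c3 _ h' hk' => simp at hst
    | c4 _ _ _ => simp at hst
    | c5 _ _ _ => simp at hst
  | @c3 s k y h hk => simp only [wt] at hw; omega
  | c4 hm c y =>
    simp only [wt] at hw hw' hag
    generalize hst : T 1 (xor c (y 0)) = st0 at h2
    cases h2 with
    | c1 _ h' hk' => simp at hst
    | c2 _ h' hk' => simp at hst
    | c3 _ h' hk' => simp at hst
    | c4 _ c2 _ =>
      simp only [T.injEq, true_and] at hst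
      have h3 := hag 0 (by omega)
      rw [h3] at hst
      have h4 : c = c2 := by
        revert hst
        cases c <;> cases c2 <;> cases z 0 <;> simp
      subst h4
      exact ⟨rfl, hag⟩
    | c5 _ _ _ => simp at hst
  | c5 hm c y =>
    simp only [wt] at hw hw' hag
    generalize hst : T 2 (y 0) = st0 at h2
    cases h2 with
    | c1 _ h' hk' => simp at hst
    | c2 _ h' hk' => simp at hst
    | c3 _ h' hk' => simp at hst
    | c4 _ _ _ => simp at hst
    | c5 _ c2 _ =>
      simp only [T.injEq, true_and] at hst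
      have h3 := hag 0 (by omega)
      simp only [cn_zero] at h3
      rw [hst] at h3
      have h4 : c = c2 := by
        revert h3
        cases c <;> cases c2 <;> cases z2 0 <;> simp
      subst h4
      refine ⟨rfl, ?_⟩
      simp only [wt]
      intro i hi
      cases i with
      | zero => exact hst
      | succ i => exact hag (i + 1) (by omega)

theorem confine_aux {M n : ℕ} {D : Set V} (hn : n < M) (h2n : 2 ≤ n) (hnc : NC n M D)
    {st st' : Step} {y y' : X} (h : Nxt M st y st' y') (hw : wt st ≤ n) (hw' : wt st' ≤ n)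
    (hD : st :: B (M - wt st) y ∈ D) {w : V} (hc : Conn M D (st :: B (M - wt st) y) w) :
    (∃ w' z, w = st :: w' ∧ Ag (n - wt st) y z ∧ st :: B (M - wt st) z ∈ D ∧
      Conn (M - wt st) (sub D [st]) (B (M - wt st) z) w') ∨
    (∃ w' z, w = st' :: w' ∧ Ag (n - wt st') y' z ∧ st' :: A (M - wt st') z ∈ D ∧
      Conn (M - wt st') (sub D [st']) (A (M - wt st') z) w') := by
  obtain ⟨hv, hv', -, -⟩ := h.val
  induction hc with
  | refl => exact Or.inl ⟨_, y, rfl, fun _ _ => rfl, hD, Relation.ReflTransGen.refl⟩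
  | tail _ hbc ih =>
    obtain ⟨hadj, hb, hc⟩ := hbc
    rcases ih with ⟨w', z, rfl, hag, hzD, hcon⟩ | ⟨w', z, rfl, hag, hzD, hcon⟩
    · rcases hadj.step with ⟨r1, w2, hr, -, rfl, ha⟩ |
        ⟨r1, y1, st2, r2, y2, hnx, hr, hr2, rfl, rfl⟩ | ⟨r1, y1, st2, r2, y2, hnx, hr, -, rfl, -⟩
      · have : M - wt st = r1 := by omega
        rw [this] at hcon hzD ⊢
        exact Or.inl ⟨_, z, rfl, hag, hzD, hcon.tail ⟨ha, hb, hc⟩⟩
      · have h1 : r1 = M - wt st := by omega
        subst h1
        have h2 : r2 = M - wt st2 := by omega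
        subst h2
        obtain ⟨w'', hw''⟩ := port_B (n - wt st) (by omega) (hnc.sub hv hw) hzD hcon
        have hag2 := hag.trans (B_pre _ (by omega) hw'')
        obtain ⟨rfl, hag3⟩ := match_f h hnx hn h2n hw hw' hag2
        exact Or.inr ⟨_, y2, rfl, hag3, hc, Relation.ReflTransGen.refl⟩
      · have h1 : r1 = M - wt st := by omega
        subst h1
        exact absurd ⟨_, _, hb, hzD, hcon.symm⟩ (hnc.cell hv hw)
    · rcases hadj.step with ⟨r1, w2, hr, -, rfl, ha⟩ |
        ⟨r1, y1, st2, r2, y2, hnx, hr, -, rfl, -⟩ | ⟨r1, y1, st2, r2, y2, hnx, hr, hr2, rfl, rfl⟩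
      · have : M - wt st' = r1 := by omega
        rw [this] at hcon hzD ⊢
        exact Or.inr ⟨_, z, rfl, hag, hzD, hcon.tail ⟨ha, hb, hc⟩⟩
      · have h1 : r1 = M - wt st' := by omega
        subst h1
        exact absurd ⟨_, _, hzD, hb, hcon⟩ (hnc.cell hv' hw')
      · have h1 : r1 = M - wt st' := by omega
        subst h1
        have h2 : r2 = M - wt st2 := by omega
        subst h2
        obtain ⟨w'', hw''⟩ := port_A (n - wt st') (by omega) (hnc.sub hv' hw') hzD hcon
        have hag2 := hag.trans (A_pre _ (by omega) hw'')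
        obtain ⟨rfl, hag3⟩ := match_b h hnx hn h2n hw hw' hag2
        exact Or.inl ⟨_, y2, rfl, hag3, hc, Relation.ReflTransGen.refl⟩

theorem confine {M n : ℕ} {D : Set V} (hn : n < M) (h2n : 2 ≤ n) (hnc : NC n M D)
    {st st' : Step} {y y' : X} (h : Nxt M st y st' y') (hw : wt st ≤ n) (hw' : wt st' ≤ n)
    (hD : st :: B (M - wt st) y ∈ D) {w : V} (hc : Conn M D (st :: B (M - wt st) y) w) :
    (∃ w', w = (st :: B (n - wt st) y) ++ w') ∨
    (∃ w', w = (st' :: A (n - wt st') y') ++ w') := by
  obtain ⟨hv, hv', -, -⟩ := h.val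
  rcases confine_aux hn h2n hnc h hw hw' hD hc with ⟨w', z, rfl, hag, hzD, hcon⟩ |
    ⟨w', z, rfl, hag, hzD, hcon⟩
  · obtain ⟨w'', rfl⟩ := port_B (n - wt st) (by omega) (hnc.sub hv hw) hzD hcon
    rw [← B_congr hag]
    exact Or.inl ⟨w'', rfl⟩
  · obtain ⟨w'', rfl⟩ := port_A (n - wt st') (by omega) (hnc.sub hv' hw') hzD hcon
    rw [← A_congr hag]
    exact Or.inr ⟨w'', rfl⟩

theorem Nxt.lower {M n : ℕ} {st st' : Step} {y y' : X} (h : Nxt M st y st' y') (hn : n < M)
    (hw : wt st ≤ n) (hw' : wt st' ≤ n) : Nxt n st y st' y' := by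
  cases h with
  | c1 y h hk => exact Nxt.c1 y hw hk
  | @c2 s k y h hk =>
    simp only [wt, List.length_append, List.length_singleton] at hw'
    exact Nxt.c2 y hw' hk
  | c3 y h hk => simp only [wt] at hw; omega
  | c4 hm c y => exact Nxt.c4 hw _ _
  | c5 hm c y => exact Nxt.c5 hw _ _

/-! ### Projections of walks -/

theorem Conn.pr {r : ℕ} {D D' : Set V} {u v : V} (h : Conn (r + 1) D u v)
    (hD : ∀ u, Mem (r + 1) u → u ∈ D → SU.pr u ∈ D') : Conn r D' (SU.pr u) (SU.pr v) := by
  induction h with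
  | refl => exact Relation.ReflTransGen.refl
  | tail _ hbc ih =>
    obtain ⟨hadj, hb, hc⟩ := hbc
    refine ih.trans (Conn.of_E ?_ (hD _ hadj.mem.1 hb) (hD _ hadj.mem.2 hc))
    exact (show E (r + 1) _ _ from Or.inr hadj).pr

theorem Crs.pr {r : ℕ} {D D' : Set V} (h : Crs (r + 1) D)
    (hD : ∀ u, Mem (r + 1) u → u ∈ D → SU.pr u ∈ D') : Crs r D' := by
  obtain ⟨y, z, hy, hz, hc⟩ := h
  refine ⟨y, z, ?_, ?_, ?_⟩
  · rw [← pr_A]; exact hD _ (mem_A _ _) hy
  · rw [← pr_B]; exact hD _ (mem_B _ _) hz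
  · rw [← pr_A, ← pr_B]; exact hc.pr hD

theorem pr_append (v : V) {w : V} (h : w ≠ []) : pr (v ++ w) = v ++ pr w := by
  induction v with
  | nil => rfl
  | cons a v ih =>
    rw [List.cons_append, pr_cons _ (by simp [h]), ih]
    rfl

theorem pr_iter (k : ℕ) : ∀ (v : V) {w : V}, Mem k w → pr^[k] (v ++ w) = v := by
  induction k with
  | zero =>
    intro v w h
    rw [h.zero, List.append_nil]
    rfl
  | succ k ih =>
    intro v w h
    rw [Function.iterate_succ_apply, pr_append v h.ne_nil]
    exact ih v h.pr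

theorem E.iter (k : ℕ) : ∀ {m : ℕ} {u v : V}, E (m + k) u v → E m (SU.pr^[k] u) (SU.pr^[k] v) := by
  induction k with
  | zero => intro m u v h; exact h
  | succ k ih =>
    intro m u v h
    rw [Function.iterate_succ_apply, Function.iterate_succ_apply]
    exact ih (m := m) (h.pr)

theorem Mem.append {n k : ℕ} {v w : V} (hv : Mem n v) (hw : Mem k w) : Mem (n + k) (v ++ w) := by
  induction hv with
  | nil => simpa using hw
  | cons hv hr _ ih => exact Mem.cons hv (by omega) ih

theorem Mem.of_append {v : V} : ∀ {n M : ℕ} {w : V}, Mem n v → Mem M (v ++ w) → ∃ k, n + k = M ∧ Mem k w := by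
  induction v with
  | nil =>
    intro n M w h1 h2
    have := h1.nil_iff
    subst this
    exact ⟨M, by omega, h2⟩
  | cons a v ih =>
    intro n M w h1 h2
    cases h1 with
    | cons hv hr h1 =>
      cases h2 with
      | cons hv' hr' h2 =>
        obtain ⟨k, hk, h3⟩ := ih h1 h2
        exact ⟨k, by omega, h3⟩

theorem finite_mem (m : ℕ) : {v | Mem m v}.Finite := by
  induction m using Nat.strong_induction_on with
  | _ m ih =>
    have hsteps : {st : Step | Val st ∧ wt st ≤ m}.Finite := by
      have h1 : {st : Step | Val st ∧ wt st ≤ m} ⊆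
          (Set.range fun p : Fin 3 × Bool => T p.1 p.2) ∪
          (fun p : List Bool × ℕ => R p.1 p.2) '' ((⋃ i ∈ Finset.range (m + 1),
            ({l : List Bool | l.length = i} ×ˢ Set.Iio (K i)))) := by
        intro st hst
        cases st with
        | T t c => exact Or.inl ⟨(t, c), rfl⟩
        | R s k =>
          right
          refine ⟨(s, k), ?_, rfl⟩
          simp only [Finset.mem_range, Set.mem_iUnion, Set.mem_prod, Set.mem_ofPred_eq,
            Set.mem_Iio, exists_prop]
          exact ⟨s.length, Nat.lt_succ_of_le hst.2, rfl, hst.1⟩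
      refine Set.Finite.subset (Set.Finite.union (Set.finite_range _) (Set.Finite.image _ ?_)) h1
      refine Set.Finite.biUnion (Finset.finite_toSet _) fun i _ => ?_
      exact (List.finite_length_eq Bool i).prod (Set.finite_Iio _)
    have h2 : {v | Mem m v} ⊆ {[]} ∪ ⋃ st ∈ {st : Step | Val st ∧ wt st ≤ m},
        (fun v : V => st :: v) '' {v | Mem (m - wt st) v} := by
      intro v hv
      cases hv with
      | nil => left; rfl
      | @cons _ r st v hv hr h =>
        right
        simp only [Set.mem_ofPred_eq, Set.mem_iUnion, Set.mem_image, exists_prop]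
        refine ⟨st, ⟨hv, by omega⟩, v, ?_, rfl⟩
        have : m - wt st = r := by omega
        rwa [this]
    refine Set.Finite.subset (Set.Finite.union (Set.finite_singleton _)
      (hsteps.biUnion fun st hst => ?_)) h2
    cases m with
    | zero =>
      have := hst.1.pos
      have := hst.2
      omega
    | succ m =>
      have h3 := hst.1.pos
      exact (ih (m + 1 - wt st) (by omega)).image _

end Pool.Agent.K7.H82.SU
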