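import Pool.Agent.K7.H82.SU.Walk

/-!
# Tours and the projection
-/

set_option autoImplicit false

namespace Pool.Agent.K7.H82.SU

open Step

/-- The crossing walk. -/
noncomputable def W (m : ℕ) (x : X) : List V := (exists_walk m x).choose

theorem W_chain (m : ℕ) (x : X) : (W m x).IsChain (Nx m) := (exists_walk m x).choose_spec.1
theorem W_head (m : ℕ) (x : X) : (W m x).head? = some (A m x) :=
  (exists_walk m x).choose_spec.2.1
theorem W_last (m : ℕ) (x : X) : (W m x).getLast? = some (B m x) :=
  (exists_walk m x).choose_spec.2.2.1
theorem mem_W {m : ℕ} {x : X} {v : V} : v ∈ W m x ↔ InG m x v :=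
  (exists_walk m x).choose_spec.2.2.2 v

theorem length_of_grading {α : Type} (g : α → ℕ) (l : List α) :
    l.IsChain (fun a b => g b = g a + 1) → ∀ a b, l.head? = some a → l.getLast? = some b →
      g b + 1 = g a + l.length := by
  induction l with
  | nil => intro _ a b h; simp at h
  | cons c l ih =>
    intro hch a b ha hb
    simp only [List.head?_cons, Option.some.injEq] at ha
    subst ha
    cases l with
    | nil =>
      simp only [List.getLast?_singleton, Option.some.injEq] at hb
      subst hb
      simp
    | cons d l =>
      rw [List.isChain_cons_cons] at hch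
      rw [List.getLast?_cons_cons] at hb
      have := ih hch.2 d b rfl hb
      simp only [List.length_cons] at this ⊢
      omega

theorem W_length (m : ℕ) (x : X) : (W m x).length = L m := by
  have h := length_of_grading (f m) (W m x) ((W_chain m x).imp fun a b h => f_Nx h) _ _
    (W_head m x) (W_last m x)
  rw [f_A, zero_add, f_B] at h
  exact h.symm

/-- The crossing walk in the last three cells, at level `j + 1`. -/
noncomputable def Tw (j : ℕ) (x : X) : List V := flat (j + 1) W (TT x)

theorem chain_TT (M : ℕ) (x : X) (hM : 1 ≤ M) : (TT x).IsChain (NR M) := by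
  unfold TT
  rw [List.isChain_cons_cons, List.isChain_cons_cons]
  refine ⟨?_, ?_, List.isChain_singleton _⟩
  · exact Nxt.c4 hM (x 1) (cn (x 0) (tl (tl x)))
  · have h3 := Nxt.c5 (m := M) hM (xor (x 1) (x 0)) (cn (x 0) (tl (tl x)))
    have h4 : cn (xor (xor (x 1) (x 0)) (cn (x 0) (tl (tl x)) 0)) (tl (cn (x 0) (tl (tl x)))) =
        tl x := by
      have h5 := cn_tl (tl x)
      simpa using h5
    rw [h4] at h3
    exact h3

theorem Tw_spec (j : ℕ) (x : X) : (Tw j x).IsChain (Nx (j + 1)) ∧
    (Tw j x).head? = some (T 0 (x 1) :: A j (cn (x 0) (tl (tl x)))) ∧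
    (Tw j x).getLast? = some (T 2 (x 0) :: B j (tl x)) := by
  have h := flat_spec (M := j + 1) (w := W) (fun r _ y => ⟨W_chain r y, W_head r y, W_last r y⟩)
    _ _ _ (chain_TT (j + 1) x (by omega)) (fun o ho => by
      simp only [List.mem_cons, List.not_mem_nil, or_false] at ho
      rcases ho with rfl | rfl | rfl <;> exact ⟨trivial, by simp [wt]⟩) rfl
  simpa [wt, Tw, TT] using h

theorem Tw_length (j : ℕ) (x : X) : (Tw j x).length = 3 * L j := by
  simp only [Tw, flat, TT, wt, List.flatMap_cons, List.flatMap_nil, List.append_nil,
    List.length_append, List.length_map, Nat.add_sub_cancel, W_length]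
  ring

theorem mem_Tw {j : ℕ} {x : X} {v : V} :
    v ∈ Tw j x ↔ InG (j + 1) x v ∧ ∃ t c u, v = T t c :: u := by
  simp only [Tw, flat, List.mem_flatMap, List.mem_map, mem_W]
  constructor
  · rintro ⟨⟨st, y⟩, hp, v', hv', rfl⟩
    have h1 : (st, y) ∈ cells j x := List.mem_append_right _ hp
    obtain ⟨h2, h3, h4⟩ := (mem_cells j x st y).1 h1
    have h5 := h2.pos
    refine ⟨?_, ?_⟩
    · rw [← h4]
      exact InG.cons h2 (by simp only; omega) hv'
    · simp only [TT, List.mem_cons, Prod.mk.injEq, List.not_mem_nil, or_false] at hp
      rcases hp with ⟨rfl, rfl⟩ | ⟨rfl, rfl⟩ | ⟨rfl, rfl⟩ <;> exact ⟨_, _, _, rfl⟩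
  · rintro ⟨h, t, c, u, rfl⟩
    cases h with
    | @cons _ r st y v hv hr h =>
      have h1 : (T t c, y) ∈ cells j (inv (T t c) y) :=
        (mem_cells j _ _ y).2 ⟨trivial, by simp [wt], rfl⟩
      rw [cells, List.mem_append, mem_RL] at h1
      rcases h1 with ⟨i, hi, k, hk, h1⟩ | h1
      · simp at h1
      · refine ⟨_, h1, u, ?_, rfl⟩
        simp only [wt] at hr ⊢
        have : j + 1 - 1 = r := by omega
        rwa [this]

/-- A sequence which extends a word. -/
def ext (s : List Bool) : X := app s fun _ => false

/-- The tour of a word. -/
noncomputable def tour (s : List Bool) : List V :=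
  if s.length ≤ 1 then [[]] else Tw (s.length - 2) (ext s) ++ (Tw (s.length - 2) (ext s)).reverse

theorem tour_one {s : List Bool} (h : s.length = 1) : tour s = [[]] := by
  rw [tour, if_pos (by omega)]

theorem tour_two {s : List Bool} {m : ℕ} (h : s.length = m + 2) :
    tour s = Tw m (ext s) ++ (Tw m (ext s)).reverse := by
  rw [tour, if_neg (by omega), h]
  rfl

theorem tour_length {s : List Bool} (h : 1 ≤ s.length) : (tour s).length = K s.length := by
  cases hs : s.length with
  | zero => omega
  | succ n =>
    cases n with
    | zero => rw [tour_one hs]; simp [K]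
    | succ m =>
      rw [tour_two hs, List.length_append, List.length_reverse, Tw_length]
      simp only [K]
      ring

/-- Equal or consecutive in one of the two orders. -/
def E (m : ℕ) (u v : V) : Prop := u = v ∨ Nx m u v ∨ Nx m v u

theorem E.symm {m : ℕ} {u v : V} (h : E m u v) : E m v u := by
  rcases h with h | h | h
  · exact Or.inl h.symm
  · exact Or.inr (Or.inr h)
  · exact Or.inr (Or.inl h)

theorem E.rfl {m : ℕ} {u : V} : E m u u := Or.inl (Eq.refl u)

theorem mem_tour {s : List Bool} {m : ℕ} (h : s.length = m + 1) {v : V} (hv : v ∈ tour s) :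
    InG m (ext s) v := by
  cases m with
  | zero =>
    rw [tour_one h, List.mem_singleton] at hv
    subst hv
    exact InG.nil _
  | succ m =>
    rw [tour_two h, List.mem_append, List.mem_reverse, or_self] at hv
    exact (mem_Tw.1 hv).1

theorem tour_chain {s : List Bool} {m : ℕ} (h : s.length = m + 1) : (tour s).IsChain (E m) := by
  cases m with
  | zero =>
    rw [tour_one h]
    exact List.isChain_singleton _
  | succ m =>
    obtain ⟨h1, h2, h3⟩ := Tw_spec m (ext s)
    rw [tour_two h, List.isChain_append]
    refine ⟨h1.imp fun a b hab => Or.inr (Or.inl hab), ?_, ?_⟩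
    · rw [List.isChain_reverse]
      exact h1.imp fun a b hab => Or.inr (Or.inr hab)
    · intro a ha b hb
      rw [List.head?_reverse] at hb
      rw [Option.mem_def] at ha hb
      rw [ha] at hb
      simp only [Option.some.injEq] at hb
      exact Or.inl hb

/-- The projection of a last step. -/
noncomputable def pr1 : Step → V
  | T _ _ => []
  | R s k => (tour s).getD k []

/-- The projection. -/
noncomputable def pr : V → V
  | [] => []
  | [st] => pr1 st
  | st :: st' :: v => st :: pr (st' :: v)

theorem pr_cons (st : Step) {v : V} (h : v ≠ []) : pr (st :: v) = st :: pr v := by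
  cases v with
  | nil => exact absurd rfl h
  | cons a v => rfl

/-- Agreement of the first `n` digits. -/
def Ag (n : ℕ) (x y : X) : Prop := ∀ i < n, x i = y i

theorem Ag.symm {n : ℕ} {x y : X} (h : Ag n x y) : Ag n y x := fun i hi => (h i hi).symm

theorem Ag.mono {n m : ℕ} {x y : X} (h : Ag n x y) (hm : m ≤ n) : Ag m x y :=
  fun i hi => h i (by omega)

theorem Ag.trans {n : ℕ} {x y z : X} (h : Ag n x y) (h' : Ag n y z) : Ag n x z :=
  fun i hi => (h i hi).trans (h' i hi)

theorem A_congr {m : ℕ} : ∀ {x y : X}, Ag m x y → A m x = A m y := by
  induction m with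
  | zero => intro x y _; rfl
  | succ m ih =>
    intro x y h
    have h1 : x 0 = y 0 := h 0 (by omega)
    have h2 : Ag m (tl x) (tl y) := fun i hi => h (i + 1) (by omega)
    simp only [A, h1, ih h2]

theorem B_congr {m : ℕ} : ∀ {x y : X}, Ag m x y → B m x = B m y := by
  induction m with
  | zero => intro x y _; rfl
  | succ m ih =>
    intro x y h
    have h1 : x 0 = y 0 := h 0 (by omega)
    have h2 : Ag m (tl x) (tl y) := fun i hi => h (i + 1) (by omega)
    simp only [B, h1, ih h2]

theorem A_inj {m : ℕ} : ∀ {x y : X}, A m x = A m y → Ag m x y := by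
  induction m with
  | zero => intro x y _ i hi; omega
  | succ m ih =>
    intro x y h i hi
    simp only [A, List.cons.injEq, R.injEq, List.cons.injEq, and_true] at h
    cases i with
    | zero => exact h.1
    | succ i => exact ih h.2 i (by omega)

theorem B_inj {m : ℕ} : ∀ {x y : X}, B m x = B m y → Ag m x y := by
  induction m with
  | zero => intro x y _ i hi; omega
  | succ m ih =>
    intro x y h i hi
    simp only [B, List.cons.injEq, T.injEq, true_and] at h
    cases i with
    | zero => exact h.1
    | succ i => exact ih h.2 i (by omega)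

theorem inv_lift {st : Step} {r : ℕ} {y x' : X} (hv : Val st) (h : Ag (wt st + r + 1) (inv st y) x') :
    ∃ y', inv st y' = x' ∧ Ag (r + 1) y y' := by
  cases st with
  | R s k =>
    simp only [wt, inv] at h ⊢
    refine ⟨sh s.length x', ?_, ?_⟩
    · funext i
      unfold app
      split_ifs with hi
      · have h1 := h i (by omega)
        simp only [app, hi, dif_pos] at h1
        exact h1
      · simp only [sh]
        congr 1
        omega
    · intro i hi
      have h1 := h (i + s.length) (by omega)
      simp only [app] at h1
      rw [dif_neg (by omega), Nat.add_sub_cancel] at h1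
      exact h1
  | T t c =>
    simp only [wt] at h
    match t with
    | 0 =>
      simp only [inv] at h ⊢
      have h0 : y 0 = x' 0 := h 0 (by omega)
      have h1 : c = x' 1 := h 1 (by omega)
      refine ⟨cn (x' 0) (tl (tl x')), ?_, ?_⟩
      · funext i
        match i with
        | 0 => rfl
        | 1 => exact h1
        | i + 2 => rfl
      · intro i hi
        cases i with
        | zero => exact h0
        | succ i => exact h (i + 2) (by omega)
    | 1 =>
      simp only [inv] at h ⊢
      have h0 : y 0 = x' 0 := h 0 (by omega)
      have h1 : xor c (y 0) = x' 1 := h 1 (by omega)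
      refine ⟨cn (x' 0) (tl (tl x')), ?_, ?_⟩
      · funext i
        match i with
        | 0 => rfl
        | 1 =>
          rw [← h1, h0]
          rfl
        | i + 2 => rfl
      · intro i hi
        cases i with
        | zero => exact h0
        | succ i => exact h (i + 2) (by omega)
    | 2 =>
      simp only [inv] at h ⊢
      have h0 : c = x' 0 := h 0 (by omega)
      refine ⟨tl x', ?_, ?_⟩
      · rw [h0, cn_tl]
      · intro i hi
        exact h (i + 1) (by omega)

theorem InG.congr {m : ℕ} {x : X} {v : V} (h : InG m x v) : ∀ {x' : X}, Ag (m + 1) x x' →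
    InG m x' v := by
  induction h with
  | nil => intro x' _; exact InG.nil _
  | @cons m r st y v hv hr _ ih =>
    intro x' h'
    subst hr
    obtain ⟨y', h1, h2⟩ := inv_lift hv h'
    rw [← h1]
    exact InG.cons hv rfl (ih h2)

theorem app_ext (s : List Bool) (y : X) : Ag s.length (app s y) (ext s) := by
  intro i hi
  simp [app, ext, hi]

theorem pr1_mem_tour {s : List Bool} {k : ℕ} (hk : k < K s.length) : pr1 (R s k) ∈ tour s := by
  have hs : 1 ≤ s.length := Val.pos (st := R s k) hk
  have h1 : k < (tour s).length := by rwa [tour_length hs]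
  simp only [pr1]
  rw [List.getD_eq_getElem _ _ h1]
  exact List.getElem_mem h1

theorem InG.pr {m : ℕ} : ∀ {x : X} {v : V}, InG (m + 1) x v → InG m x (pr v) := by
  induction m using Nat.strong_induction_on with
  | _ m ih =>
    intro x v h
    cases h with
    | @cons _ r st y v hv hr h =>
      cases r with
      | zero =>
        have hv0 := h.mem.zero
        subst hv0
        simp only [SU.pr]
        cases st with
        | T t c =>
          simp only [wt] at hr
          have : m = 0 := by omega
          subst this
          exact InG.nil _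
        | R s k =>
          simp only [wt] at hr
          have h1 := mem_tour (m := m) (by omega) (pr1_mem_tour (s := s) (k := k) hv)
          refine h1.congr ?_
          simp only [inv]
          have h2 := app_ext s y
          rw [show s.length = m + 1 by omega] at h2
          exact h2.symm
      | succ r =>
        have h1 := hv.pos
        have h2 := h.mem.ne_nil
        rw [pr_cons st h2]
        exact InG.cons hv (by omega) (ih r (by omega) h)

theorem Mem.exists_inG {m : ℕ} {v : V} (h : Mem m v) : ∃ x, InG m x v := by
  induction h with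
  | nil => exact ⟨fun _ => false, InG.nil _⟩
  | cons hv hr _ ih =>
    obtain ⟨y, hy⟩ := ih
    exact ⟨_, InG.cons hv hr hy⟩

theorem Mem.pr {m : ℕ} {v : V} (h : Mem (m + 1) v) : Mem m (pr v) := by
  obtain ⟨x, hx⟩ := h.exists_inG
  exact hx.pr.mem

theorem pr_A (r : ℕ) (x : X) : SU.pr (A (r + 1) x) = A r x := by
  induction r generalizing x with
  | zero => simp [A, SU.pr, pr1, tour]
  | succ r ih =>
    rw [A, pr_cons _ (mem_A _ _).ne_nil, ih]
    rfl

theorem pr_B (r : ℕ) (x : X) : SU.pr (B (r + 1) x) = B r x := by
  induction r generalizing x with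
  | zero => simp [B, SU.pr, pr1]
  | succ r ih =>
    rw [B, pr_cons _ (mem_B _ _).ne_nil, ih]
    rfl

theorem E.cell {m r : ℕ} {st : Step} {u v : V} (hv : Val st) (hr : wt st + r = m) (h : E r u v) :
    E m (st :: u) (st :: v) := by
  rcases h with h | h | h
  · exact Or.inl (by rw [h])
  · exact Or.inr (Or.inl (Nx.cell hv hr h))
  · exact Or.inr (Or.inr (Nx.cell hv hr h))

theorem tour_head {s : List Bool} {m : ℕ} (h : s.length = m + 2) (y : X) :
    pr1 (R s 0) = T 0 (app s y 1) :: A m (cn (app s y 0) (tl (tl (app s y)))) := by
  obtain ⟨h1, h2, h3⟩ := Tw_spec m (ext s)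
  have h4 : (tour s).head? = some (T 0 (ext s 1) :: A m (cn (ext s 0) (tl (tl (ext s))))) := by
    rw [tour_two h, List.head?_append, h2]
    rfl
  have h5 : pr1 (R s 0) = T 0 (ext s 1) :: A m (cn (ext s 0) (tl (tl (ext s)))) := by
    simp only [pr1]
    cases ht : tour s with
    | nil => rw [ht] at h4; simp at h4
    | cons a l =>
      rw [ht] at h4
      simp only [List.head?_cons, Option.some.injEq] at h4
      simpa using h4
  have h6 := app_ext s y
  rw [h5, h6 1 (by omega)]
  congr 1
  refine A_congr fun i hi => ?_
  cases i with
  | zero => exact (h6 0 (by omega)).symm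
  | succ i => exact (h6 (i + 2) (by omega)).symm

theorem tour_last {s : List Bool} {m k : ℕ} (h : s.length = m + 2) (hk : k + 1 = K s.length)
    (y : X) : pr1 (R s k) = T 0 (app s y 1) :: A m (cn (app s y 0) (tl (tl (app s y)))) := by
  rw [← tour_head h y]
  simp only [pr1]
  have hl : (tour s).length = k + 1 := by rw [tour_length (by omega), hk]
  have h1 : (tour s).reverse = tour s := by
    rw [tour_two h, List.reverse_append, List.reverse_reverse]
  have h2 : (tour s).getD k [] = (tour s).reverse.getD 0 [] := by
    rw [List.getD_eq_getElem _ _ (by omega), List.getD_eq_getElem _ _ (by simp; omega)]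
    simp only [List.getElem_reverse, hl]
    simp
  rw [h2, h1]

/-- The projection preserves adjacency. -/
theorem Nx.pr {m : ℕ} : ∀ {u v : V}, Nx (m + 1) u v → E m (SU.pr u) (SU.pr v) := by
  induction m using Nat.strong_induction_on with
  | _ m ih =>
    intro u v h
    cases h with
    | @cell _ r st u v hv hr h =>
      have h0 := hv.pos
      cases r with
      | zero =>
        have h1 := h.mem.1.zero
        have h2 := h.mem.2.zero
        subst h1 h2
        exact E.rfl
      | succ r =>
        rw [pr_cons st h.mem.1.ne_nil, pr_cons st h.mem.2.ne_nil]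
        exact E.cell hv (by omega) (ih r (by omega) h)
    | @port _ r r' st st' y y' h hr hr' =>
      cases h with
      | @c1 s k _ h hk =>
        have h1 : r = r' := by simp only [wt] at hr hr'; omega
        subst h1
        cases r with
        | zero =>
          simp only [wt] at hr
          have h2 := tour_chain (s := s) (m := m) (by omega)
          rw [List.isChain_iff_getElem] at h2
          have h3 : (tour s).length = K s.length := tour_length (by omega)
          have h4 := h2 k (by omega)
          have e1 : SU.pr (R s k :: B 0 y) = (tour s)[k] := by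
            simp only [B, SU.pr, pr1]
            rw [List.getD_eq_getElem]
          have e2 : SU.pr (R s (k + 1) :: A 0 y) = (tour s)[k + 1] := by
            simp only [A, SU.pr, pr1]
            rw [List.getD_eq_getElem]
          rw [e1, e2]
          exact h4
        | succ r =>
          rw [pr_cons _ (mem_B _ _).ne_nil, pr_cons _ (mem_A _ _).ne_nil, pr_B, pr_A]
          simp only [wt] at hr
          exact Or.inr (Or.inl (Nx.port (Nxt.c1 y (by omega) hk) (by simp only [wt]; omega)
            (by simp only [wt]; omega)))
      | @c2 s k _ h hk =>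
        simp only [wt, List.length_append, List.length_singleton] at hr hr'
        obtain ⟨r1, rfl⟩ : ∃ r1, r = r1 + 1 := ⟨r - 1, by omega⟩
        have h1 : r' = r1 := by omega
        subst h1
        rw [pr_cons _ (mem_B _ _).ne_nil, pr_B]
        cases r' with
        | zero =>
          have h2 : s.length = m := by omega
          have hs : 1 ≤ s.length := Val.pos (st := R s k) (by simp only [Val]; omega)
          obtain ⟨m', rfl⟩ : ∃ m', m = m' + 1 := ⟨m - 1, by omega⟩
          have h3 : SU.pr (R (s ++ [y 0]) 0 :: A 0 (tl y)) = pr1 (R (s ++ [y 0]) 0) := rfl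
          rw [h3, tour_head (m := m') (by simp; omega) (tl y), app_snoc]
          exact Or.inr (Or.inl (Nx.port (r := 0) (r' := m') (Nxt.c3 y h2 hk) (by simp only [wt]; omega)
            (by simp only [wt]; omega)))
        | succ r' =>
          rw [pr_cons _ (mem_A _ _).ne_nil, pr_A]
          exact Or.inr (Or.inl (Nx.port (Nxt.c2 y (by omega) hk) (by simp only [wt]; omega)
            (by simp only [wt, List.length_append, List.length_singleton]; omega)))
      | @c3 s k _ h hk =>
        simp only [wt] at hr hr'
        have h1 : r = 0 := by omega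
        subst h1
        have h2 : r' = m := by omega
        subst h2
        cases r' with
        | zero =>
          have h3 : SU.pr (R s k :: B 0 y) = pr1 (R s k) := rfl
          have h4 := pr1_mem_tour (s := s) (k := k) (by omega)
          rw [tour_one (by omega), List.mem_singleton] at h4
          rw [h3, h4]
          exact E.rfl
        | succ m' =>
          have h3 : SU.pr (R s k :: B 0 y) = pr1 (R s k) := rfl
          rw [h3, tour_last (m := m') (by omega) hk y, pr_cons _ (mem_A _ _).ne_nil, pr_A]
          exact E.rfl
      | c4 hm c y =>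
        simp only [wt] at hr hr'
        have h1 : r = m := by omega
        have h2 : r' = m := by omega
        subst h1 h2
        cases r' with
        | zero => exact E.rfl
        | succ m' =>
          rw [pr_cons _ (mem_B _ _).ne_nil, pr_cons _ (mem_A _ _).ne_nil, pr_B, pr_A]
          exact Or.inr (Or.inl (Nx.port (Nxt.c4 (by omega) _ _) (by simp only [wt]; omega)
            (by simp only [wt]; omega)))
      | c5 hm c y =>
        simp only [wt] at hr hr'
        have h1 : r = m := by omega
        have h2 : r' = m := by omega
        subst h1 h2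
        cases r' with
        | zero => exact E.rfl
        | succ m' =>
          rw [pr_cons _ (mem_B _ _).ne_nil, pr_cons _ (mem_A _ _).ne_nil, pr_B, pr_A]
          exact Or.inr (Or.inl (Nx.port (Nxt.c5 (by omega) _ _) (by simp only [wt]; omega)
            (by simp only [wt]; omega)))

theorem E.pr {m : ℕ} {u v : V} (h : E (m + 1) u v) : E m (SU.pr u) (SU.pr v) := by
  rcases h with h | h | h
  · exact Or.inl (by rw [h])
  · exact h.pr
  · exact h.pr.symm

end Pool.Agent.K7.H82.SU
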