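import Pool.Agent.K7.H82.SU.Cross

/-!
# The compact metric space
-/

set_option autoImplicit false

namespace Pool.Agent.K7.H82.SU

open Step Filter Topology
open scoped NNReal

/-! ### Compactness -/

/-- The discrete topology on the addresses. -/
@[instance_reducible]
def topV : TopologicalSpace V := ⊥

attribute [local instance] topV

theorem discV : DiscreteTopology V := ⟨rfl⟩

attribute [local instance] discV

/-- The topology of pointwise convergence. -/
@[instance_reducible]
def topPt : TopologicalSpace Pt := instTopologicalSpaceSubtype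

attribute [local instance] topPt

theorem compactPt : CompactSpace Pt := by
  have h1 : IsCompact {p : ℕ → V | ∀ m, Mem m (p m) ∧ pr (p (m + 1)) = p m} := by
    have h2 : IsCompact (Set.pi Set.univ fun m => {v | Mem m v}) :=
      isCompact_univ_pi fun m => (finite_mem m).isCompact
    have h3 : IsClosed {p : ℕ → V | ∀ m, pr (p (m + 1)) = p m} := by
      have : {p : ℕ → V | ∀ m, pr (p (m + 1)) = p m} = ⋂ m, {p : ℕ → V | pr (p (m + 1)) = p m} := by
        ext p
        simp
      rw [this]
      refine isClosed_iInter fun m => ?_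
      exact isClosed_eq (continuous_of_discreteTopology.comp (continuous_apply (m + 1)))
        (continuous_apply m)
    have h4 := h2.inter_right h3
    convert h4 using 1
    ext p
    simp only [Set.mem_ofPred_eq, Set.mem_inter_iff, Set.mem_pi, Set.mem_univ, true_imp_iff]
    exact ⟨fun h => ⟨fun m => (h m).1, fun m => (h m).2⟩, fun h m => ⟨h.1 m, h.2 m⟩⟩
  exact isCompact_iff_compactSpace.1 h1

attribute [local instance] compactPt

theorem firstCountablePt : FirstCountableTopology Pt :=
  TopologicalSpace.Subtype.firstCountableTopology {p : ℕ → V | ∀ m, Mem m (p m) ∧ pr (p (m + 1)) = p m}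

attribute [local instance] firstCountablePt

theorem tendsto_coord {x : ℕ → Pt} {p : Pt} (h : Tendsto x atTop (𝓝 p)) (m : ℕ) :
    ∀ᶠ n in atTop, (x n).1 m = p.1 m := by
  have h1 : Continuous fun q : Pt => q.1 m := (continuous_apply m).comp continuous_subtype_val
  have h2 := (h1.tendsto p).comp h
  rw [nhds_discrete, tendsto_pure] at h2
  exact h2

/-! ### The limit relation is transitive -/

theorem ivt {r : ℕ} {D : Set V} {a w : V} (h : Conn r D a w) (ha : a ∈ D) (h0 : f r a = 0) :
    ∀ i ≤ f r w, ∃ u ∈ D, f r u = i := by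
  induction h with
  | refl =>
    intro i hi
    exact ⟨a, ha, by omega⟩
  | @tail b c _ hbc ih =>
    obtain ⟨hadj, hb, hc⟩ := hbc
    intro i hi
    rcases hadj with h1 | h1
    · have h2 := f_Nx h1
      rcases Nat.lt_or_eq_of_le hi with h3 | h3
      · exact ih i (by omega)
      · exact ⟨c, hc, h3.symm⟩
    · have h2 := f_Nx h1
      exact ih i (by omega)

theorem crs_one {D : Set V} (h : Crs 1 D) : ∀ i < 4, ∃ u ∈ D, f 1 u = i := by
  obtain ⟨y, z, hy, hz, hc⟩ := h
  have h1 := ivt hc hy (f_A 1 y)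
  have h2 := f_B 1 z
  have h3 : L 1 = 4 := by
    rw [show (1 : ℕ) = 0 + 1 from rfl, L_succ]
    simp [K, L_zero]
  intro i hi
  exact h1 i (by omega)

theorem trans_rel {p q r : Pt} (h1 : ∀ m, E m (p.1 m) (q.1 m)) (h2 : ∀ m, E m (q.1 m) (r.1 m)) :
    ∀ m, E m (p.1 m) (r.1 m) := by
  intro m
  set C : Set Pt := {p, q, r} with hC
  have hp : p ∈ C := by simp [hC]
  have hq : q ∈ C := by simp [hC]
  have hr : r ∈ C := by simp [hC]
  refine key m C ?_ ?_ p hp r hr
  · intro M
    have c1 : Conn M (Tr C M) (p.1 M) (q.1 M) := Conn.of_E (h1 M) (mem_Tr hp M) (mem_Tr hq M)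
    have c2 : Conn M (Tr C M) (q.1 M) (r.1 M) := Conn.of_E (h2 M) (mem_Tr hq M) (mem_Tr hr M)
    have hall : ∀ a ∈ C, Conn M (Tr C M) (q.1 M) (a.1 M) := by
      intro a ha
      simp only [hC, Set.mem_insert_iff, Set.mem_singleton_iff] at ha
      rcases ha with rfl | rfl | rfl
      · exact c1.symm
      · exact Relation.ReflTransGen.refl
      · exact c2
    intro a ha b hb
    exact (hall a ha).symm.trans (hall b hb)
  · intro n v hv
    refine ⟨1, fun hcon => ?_⟩
    choose! u hu hfu using crs_one hcon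
    have h3 : ∀ i : Fin 4, ∃ j : Fin 3, v ++ u i = ![p.1 (n + 1), q.1 (n + 1), r.1 (n + 1)] j := by
      intro i
      obtain ⟨a, ha, h4⟩ := hu i i.2
      simp only [hC, Set.mem_insert_iff, Set.mem_singleton_iff] at ha
      rcases ha with rfl | rfl | rfl
      · exact ⟨0, h4.symm⟩
      · exact ⟨1, h4.symm⟩
      · exact ⟨2, h4.symm⟩
    choose g hg using h3
    obtain ⟨i, j, hij, hgij⟩ := Fintype.exists_ne_map_eq_of_card_lt g (by simp)
    have h5 := hg i
    rw [hgij, ← hg j] at h5
    have h6 := List.append_cancel_left h5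
    have h7 := hfu i i.2
    rw [h6, hfu j j.2] at h7
    exact hij (Fin.ext h7.symm)

/-- The relation of level `m`. -/
def EP (m : ℕ) (p q : Pt) : Prop := E m (p.1 m) (q.1 m)

theorem EP.symm {m : ℕ} {p q : Pt} (h : EP m p q) : EP m q p := E.symm h

theorem EP.refl (m : ℕ) (p : Pt) : EP m p p := E.rfl

theorem EP.mono {m n : ℕ} {p q : Pt} (h : EP n p q) (hmn : m ≤ n) : EP m p q := by
  have h1 := p.iter (n - m) m
  have h2 := q.iter (n - m) m
  rw [show m + (n - m) = n by omega] at h1 h2
  unfold EP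
  rw [← h1, ← h2]
  refine E.iter (n - m) ?_
  rw [show m + (n - m) = n by omega]
  exact h

/-- Three steps of a fine relation make a step of a given relation. -/
theorem modulus (m : ℕ) : ∃ M, m ≤ M ∧ ∀ p q r s : Pt, EP M p q → EP M q r → EP M r s →
    EP m p s := by
  by_contra hcon
  push Not at hcon
  choose p q r s h1 h2 h3 h4 using fun n : ℕ => hcon (m + n) (by omega)
  obtain ⟨a, φ, hφ, hlim⟩ := CompactSpace.tendsto_subseq fun n => (p n, q n, r n, s n)
  have l1 : Tendsto (fun n => p (φ n)) atTop (𝓝 a.1) :=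
    ((continuous_fst.tendsto a).comp hlim)
  have l2 : Tendsto (fun n => q (φ n)) atTop (𝓝 a.2.1) :=
    (((continuous_fst.comp continuous_snd).tendsto a).comp hlim)
  have l3 : Tendsto (fun n => r (φ n)) atTop (𝓝 a.2.2.1) :=
    (((continuous_fst.comp (continuous_snd.comp continuous_snd)).tendsto a).comp hlim)
  have l4 : Tendsto (fun n => s (φ n)) atTop (𝓝 a.2.2.2) :=
    (((continuous_snd.comp (continuous_snd.comp continuous_snd)).tendsto a).comp hlim)
  have hlimrel : ∀ (x y : ℕ → Pt) (b c : Pt), Tendsto (fun n => x (φ n)) atTop (𝓝 b) →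
      Tendsto (fun n => y (φ n)) atTop (𝓝 c) → (∀ n, EP (m + n) (x n) (y n)) →
      ∀ k, E k (b.1 k) (c.1 k) := by
    intro x y b c hb hc hxy k
    obtain ⟨n, hn1, hn2, hn3⟩ := ((tendsto_coord hb k).and ((tendsto_coord hc k).and
      (eventually_ge_atTop k))).exists
    rw [← hn1, ← hn2]
    have h5 := hφ.id_le n
    simp only [id] at h5
    exact (hxy (φ n)).mono (by omega)
  have e1 := hlimrel p q _ _ l1 l2 h1
  have e2 := hlimrel q r _ _ l2 l3 h2
  have e3 := hlimrel r s _ _ l3 l4 h3
  have e4 := trans_rel (trans_rel e1 e2) e3 m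
  obtain ⟨n, hn1, hn2⟩ := ((tendsto_coord l1 m).and (tendsto_coord l4 m)).exists
  refine h4 (φ n) ?_
  unfold EP
  rw [hn1, hn2]
  exact e4

/-- The levels used for the metric. -/
noncomputable def mu : ℕ → ℕ
  | 0 => 0
  | i + 1 => max (modulus (mu i)).choose ((i + 1) * (i + 1))

theorem mu_ge (i : ℕ) : i * i ≤ mu i := by
  cases i with
  | zero => simp
  | succ i => exact le_max_right _ _

theorem mu_mono : Monotone mu := by
  refine monotone_nat_of_le_succ fun i => ?_
  exact (modulus (mu i)).choose_spec.1.trans (le_max_left _ _)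

theorem mu_three {i : ℕ} {p q r s : Pt} (h1 : EP (mu (i + 1)) p q) (h2 : EP (mu (i + 1)) q r)
    (h3 : EP (mu (i + 1)) r s) : EP (mu i) p s := by
  have hle : (modulus (mu i)).choose ≤ mu (i + 1) := le_max_left _ _
  exact (modulus (mu i)).choose_spec.2 p q r s (h1.mono hle) (h2.mono hle) (h3.mono hle)

open Classical in
/-- The distance before the chain construction. -/
noncomputable def pd (p q : Pt) : ℝ≥0 :=
  if h : ∃ i, ¬ EP (mu i) p q then (1 / 2) ^ (Nat.find h) else 0

theorem pd_lt {p q : Pt} {i : ℕ} : pd p q < (1 / 2) ^ i ↔ EP (mu i) p q := by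
  classical
  unfold pd
  split_ifs with h
  · have h1 : ((1 / 2 : ℝ≥0)) ^ (Nat.find h) < (1 / 2) ^ i ↔ i < Nat.find h := by
      refine pow_lt_pow_iff_right_of_lt_one₀ (by norm_num) ?_
      rw [div_lt_one (by norm_num)]
      norm_num
    rw [h1]
    constructor
    · intro h2
      by_contra h3
      exact absurd (Nat.find_min' h h3) (by omega)
    · intro h2
      by_contra h3
      exact Nat.find_spec h (h2.mono (mu_mono (by omega)))
  · push Not at h
    exact ⟨fun _ => h i, fun _ => by positivity⟩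

theorem pd_self (p : Pt) : pd p p = 0 := by
  unfold pd
  rw [dif_neg]
  push Not
  exact fun i => EP.refl _ _

theorem pd_comm (p q : Pt) : pd p q = pd q p := by
  classical
  have h : ∀ i, EP (mu i) p q ↔ EP (mu i) q p := fun i => ⟨EP.symm, EP.symm⟩
  by_cases h1 : ∃ i, ¬ EP (mu i) p q
  · have h2 : ∃ i, ¬ EP (mu i) q p := by
      obtain ⟨i, hi⟩ := h1
      exact ⟨i, fun h3 => hi h3.symm⟩
    unfold pd
    rw [dif_pos h1, dif_pos h2]
    congr 1
    exact Nat.find_congr' (fun {n} => by rw [h])
  · have h2 : ¬ ∃ i, ¬ EP (mu i) q p := by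
      rintro ⟨i, hi⟩
      exact h1 ⟨i, fun h3 => hi h3.symm⟩
    unfold pd
    rw [dif_neg h1, dif_neg h2]

theorem pd_three (x₁ x₂ x₃ x₄ : Pt) :
    pd x₁ x₄ ≤ 2 * max (pd x₁ x₂) (max (pd x₂ x₃) (pd x₃ x₄)) := by
  classical
  by_cases h : ∃ i, ¬ EP (mu i) x₁ x₄
  · have h1 : pd x₁ x₄ = (1 / 2) ^ (Nat.find h) := by
      unfold pd
      rw [dif_pos h]
    rw [h1]
    by_contra hcon
    rw [not_le] at hcon
    have h2 : max (pd x₁ x₂) (max (pd x₂ x₃) (pd x₃ x₄)) < (1 / 2) ^ (Nat.find h + 1) := by
      rw [pow_succ, mul_one_div, lt_div_iff₀ (by norm_num), mul_comm]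
      exact hcon
    rw [max_lt_iff, max_lt_iff, pd_lt, pd_lt, pd_lt] at h2
    exact Nat.find_spec h (mu_three h2.1 h2.2.1 h2.2.2)
  · have h1 : pd x₁ x₄ = 0 := by
      unfold pd
      rw [dif_neg h]
    rw [h1]
    exact zero_le

/-- The points with the metric. -/
def PM : Type := Pt

noncomputable instance : PseudoMetricSpace PM :=
  PseudoMetricSpace.ofPreNNDist (X := Pt) pd pd_self pd_comm

theorem dist_le_pd (p q : Pt) : dist (show PM from p) (show PM from q) ≤ pd p q :=
  PseudoMetricSpace.dist_ofPreNNDist_le (X := Pt) pd pd_self pd_comm p q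

theorem pd_le_dist (p q : Pt) : (pd p q : ℝ) ≤ 2 * dist (show PM from p) (show PM from q) :=
  PseudoMetricSpace.le_two_mul_dist_ofPreNNDist (X := Pt) pd pd_self pd_comm pd_three p q

/-- The space. -/
abbrev KS : Type := SeparationQuotient PM

/-- The quotient map. -/
noncomputable def mk (p : Pt) : KS := SeparationQuotient.mk (show PM from p)

theorem mk_surj : Function.Surjective mk := SeparationQuotient.surjective_mk (X := PM)

theorem dist_mk_lt {p q : Pt} {i : ℕ} (h : EP (mu i) p q) : dist (mk p) (mk q) < (1 / 2) ^ i := by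
  unfold mk
  rw [SeparationQuotient.dist_mk]
  refine (dist_le_pd p q).trans_lt ?_
  have := pd_lt.2 h
  rw [← NNReal.coe_lt_coe] at this
  simpa using this

theorem EP_of_dist {p q : Pt} {i : ℕ} (h : dist (mk p) (mk q) < (1 / 2) ^ (i + 1)) :
    EP (mu i) p q := by
  unfold mk at h
  rw [SeparationQuotient.dist_mk] at h
  rw [← pd_lt, ← NNReal.coe_lt_coe]
  refine (pd_le_dist p q).trans_lt ?_
  rw [pow_succ] at h
  push_cast
  linarith

theorem continuous_mk : Continuous mk := by
  rw [continuous_iff_continuousAt]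
  intro p
  rw [ContinuousAt, Metric.tendsto_nhds]
  intro ε hε
  obtain ⟨i, hi⟩ := exists_pow_lt_of_lt_one hε (show (1 / 2 : ℝ) < 1 by norm_num)
  have h1 : Continuous fun q : Pt => q.1 (mu i) :=
    (continuous_apply _).comp continuous_subtype_val
  have h2 : ∀ᶠ q in 𝓝 p, q.1 (mu i) = p.1 (mu i) :=
    h1.continuousAt.preimage_mem_nhds ((isOpen_discrete {p.1 (mu i)}).mem_nhds rfl)
  refine h2.mono fun q hq => ?_
  refine (dist_mk_lt (i := i) ?_).trans hi
  unfold EP
  rw [hq]
  exact E.rfl

instance : CompactSpace KS := by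
  rw [← isCompact_univ_iff, ← mk_surj.range_eq]
  exact isCompact_range continuous_mk

end Pool.Agent.K7.H82.SU
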