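import Pool.Agent.K7.H82.SU.Base

/-!
# Crossing walks
-/

set_option autoImplicit false

namespace Pool.Agent.K7.H82.SU

open Step

/-- Consecutive cells. -/
def NR (M : ℕ) (p q : Step × X) : Prop := Nxt M p.1 p.2 q.1 q.2

/-- The chain of cells of the word of length `j + 1`. -/
def G (x : X) (j : ℕ) : List (Step × X) :=
  (List.range (K (j + 1))).map fun k => (R (pre (j + 1) x) k, sh (j + 1) x)

/-- The chains of cells of the words of length at most `j`. -/
def RL (x : X) : ℕ → List (Step × X)
  | 0 => []
  | j + 1 => RL x j ++ G x j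

/-- The last three cells. -/
def TT (x : X) : List (Step × X) :=
  [(T 0 (x 1), cn (x 0) (tl (tl x))), (T 1 (xor (x 1) (x 0)), cn (x 0) (tl (tl x))),
    (T 2 (x 0), tl x)]

theorem sh_succ (n : ℕ) (x : X) : sh (n + 1) x = tl (sh n x) := by
  funext i
  simp only [sh, tl]
  congr 1
  omega

theorem chain_G (x : X) (M j : ℕ) (h : j + 1 ≤ M) : (G x j).IsChain (NR M) := by
  unfold G
  rw [List.isChain_map, List.isChain_range]
  intro k hk
  exact Nxt.c1 _ (by simpa using h) (by rw [length_pre]; omega)

theorem head_G (x : X) (j : ℕ) : (G x j).head? = some (R (pre (j + 1) x) 0, sh (j + 1) x) := by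
  obtain ⟨n, hn⟩ : ∃ n, K (j + 1) = n + 1 := ⟨K (j + 1) - 1, by have := K_pos j; omega⟩
  simp [G, hn, List.range_succ_eq_map]

theorem last_G (x : X) (j : ℕ) :
    (G x j).getLast? = some (R (pre (j + 1) x) (K (j + 1) - 1), sh (j + 1) x) := by
  obtain ⟨n, hn⟩ : ∃ n, K (j + 1) = n + 1 := ⟨K (j + 1) - 1, by have := K_pos j; omega⟩
  simp [G, hn, List.range_succ]

theorem chain_RL (x : X) (M j : ℕ) (h : j ≤ M) : (RL x j).IsChain (NR M) ∧
    ∀ j', j = j' + 1 →
      (RL x j).getLast? = some (R (pre (j' + 1) x) (K (j' + 1) - 1), sh (j' + 1) x) := by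
  induction j with
  | zero => exact ⟨List.isChain_nil, fun j' h => by omega⟩
  | succ j ih =>
    obtain ⟨ih1, ih2⟩ := ih (by omega)
    refine ⟨?_, ?_⟩
    · rw [RL, List.isChain_append]
      refine ⟨ih1, chain_G x M j h, ?_⟩
      intro p hp q hq
      rw [head_G] at hq
      simp only [Option.mem_def, Option.some.injEq] at hq
      subst hq
      cases j with
      | zero => simp [RL] at hp
      | succ j' =>
        rw [ih2 j' rfl] at hp
        simp only [Option.mem_def, Option.some.injEq] at hp
        subst hp
        have h1 := Nxt.c2 (m := M) (s := pre (j' + 1) x) (k := K (j' + 1) - 1) (sh (j' + 1) x)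
          (by rw [length_pre]; omega) (by rw [length_pre]; have := K_pos j'; omega)
        rw [← pre_succ, ← sh_succ] at h1
        exact h1
    · intro j' hj'
      have : j = j' := by omega
      subst this
      rw [RL, List.getLast?_append, last_G]
      rfl

/-- The cells at level `m + 1` met by the continuum with index `x`. -/
def cells (m : ℕ) (x : X) : List (Step × X) := RL x (m + 1) ++ TT x

theorem chain_cells (m : ℕ) (x : X) : (cells m x).IsChain (NR (m + 1)) := by
  unfold cells
  obtain ⟨h1, h2⟩ := chain_RL x (m + 1) (m + 1) le_rfl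
  rw [List.isChain_append]
  refine ⟨h1, ?_, ?_⟩
  · unfold TT
    rw [List.isChain_cons_cons, List.isChain_cons_cons]
    refine ⟨?_, ?_, List.isChain_singleton _⟩
    · exact Nxt.c4 (by omega) (x 1) (cn (x 0) (tl (tl x)))
    · have h3 := Nxt.c5 (m := m + 1) (by omega) (xor (x 1) (x 0)) (cn (x 0) (tl (tl x)))
      have h4 : cn (xor (xor (x 1) (x 0)) (cn (x 0) (tl (tl x)) 0)) (tl (cn (x 0) (tl (tl x)))) =
          tl x := by
        have h5 := cn_tl (tl x)
        simpa using h5
      rw [h4] at h3
      exact h3
  · intro p hp q hq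
    rw [h2 m rfl] at hp
    simp only [Option.mem_def, Option.some.injEq] at hp
    subst hp
    simp only [TT, List.head?_cons, Option.mem_def, Option.some.injEq] at hq
    subst hq
    have h1 := Nxt.c3 (m := m + 1) (s := pre (m + 1) x) (k := K (m + 1) - 1) (sh (m + 1) x)
      (length_pre _ _) (by rw [length_pre]; have := K_pos m; omega)
    rw [app_pre] at h1
    exact h1

theorem pre_app (s : List Bool) (y : X) : pre s.length (app s y) = s := by
  apply List.ext_getElem
  · simp
  · intro i h1 h2
    simp [pre, app, h2]

theorem sh_app (s : List Bool) (y : X) : sh s.length (app s y) = y := by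
  funext i
  simp [sh, app]

theorem mem_RL (x : X) (j : ℕ) (p : Step × X) : p ∈ RL x j ↔
    ∃ i < j, ∃ k < K (i + 1), p = (R (pre (i + 1) x) k, sh (i + 1) x) := by
  induction j with
  | zero => simp [RL]
  | succ j ih =>
    rw [RL, List.mem_append, ih]
    simp only [G, List.mem_map, List.mem_range]
    constructor
    · rintro (⟨i, hi, k, hk, rfl⟩ | ⟨k, hk, rfl⟩)
      · exact ⟨i, by omega, k, hk, rfl⟩
      · exact ⟨j, by omega, k, hk, rfl⟩
    · rintro ⟨i, hi, k, hk, rfl⟩
      rcases Nat.lt_succ_iff_lt_or_eq.1 hi with h | h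
      · exact Or.inl ⟨i, h, k, hk, rfl⟩
      · subst h
        exact Or.inr ⟨k, hk, rfl⟩

theorem mem_cells (m : ℕ) (x : X) (st : Step) (y : X) :
    (st, y) ∈ cells m x ↔ Val st ∧ wt st ≤ m + 1 ∧ inv st y = x := by
  rw [cells, List.mem_append, mem_RL]
  constructor
  · rintro (⟨i, hi, k, hk, h⟩ | h)
    · obtain ⟨rfl, rfl⟩ := Prod.ext_iff.1 h
      refine ⟨by simpa [Val] using hk, by simp [wt]; omega, app_pre _ _⟩
    · simp only [TT, List.mem_cons, Prod.mk.injEq, List.not_mem_nil, or_false] at h
      rcases h with ⟨rfl, rfl⟩ | ⟨rfl, rfl⟩ | ⟨rfl, rfl⟩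
      · refine ⟨trivial, by simp [wt], ?_⟩
        simp only [inv, cn_zero, tl_cn]
        have h5 := cn_tl (tl x)
        rw [tl_apply] at h5
        rw [h5, cn_tl]
      · refine ⟨trivial, by simp [wt], ?_⟩
        simp only [inv, cn_zero, tl_cn]
        have h5 := cn_tl (tl x)
        rw [tl_apply] at h5
        rw [Bool.xor_assoc, Bool.xor_self, Bool.xor_false, h5, cn_tl]
      · exact ⟨trivial, by simp [wt], cn_tl x⟩
  · rintro ⟨hv, hw, rfl⟩
    cases st with
    | T t c =>
      right
      simp only [TT, List.mem_cons, Prod.mk.injEq, List.not_mem_nil, or_false]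
      match t with
      | 0 =>
        left
        refine ⟨by simp [inv], ?_⟩
        simp only [inv, cn_zero, tl_cn]
        exact (cn_tl y).symm
      | 1 =>
        right; left
        refine ⟨by simp [inv], ?_⟩
        simp only [inv, cn_zero, tl_cn]
        exact (cn_tl y).symm
      | 2 =>
        right; right
        exact ⟨by simp [inv], rfl⟩
    | R s k =>
      left
      have h1 := hv.pos
      simp only [wt] at hw h1
      refine ⟨s.length - 1, by omega, k, ?_, ?_⟩
      · simp only [Val] at hv
        have : s.length - 1 + 1 = s.length := by omega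
        rwa [this]
      · have : s.length - 1 + 1 = s.length := by omega
        rw [this]
        simp only [inv]
        rw [pre_app, sh_app]

/-- The concatenation of walks in cells. -/
def flat (M : ℕ) (w : ℕ → X → List V) (c : List (Step × X)) : List V :=
  c.flatMap fun p => (w (M - wt p.1) p.2).map (p.1 :: ·)

theorem flat_spec {M : ℕ} {w : ℕ → X → List V}
    (hw : ∀ r < M, ∀ y, (w r y).IsChain (Nx r) ∧ (w r y).head? = some (A r y) ∧
      (w r y).getLast? = some (B r y)) (c : List (Step × X)) :
    ∀ p q : Step × X, (p :: c).IsChain (NR M) → (∀ o ∈ p :: c, Val o.1 ∧ wt o.1 ≤ M) →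
      (p :: c).getLast? = some q →
      (flat M w (p :: c)).IsChain (Nx M) ∧
      (flat M w (p :: c)).head? = some (p.1 :: A (M - wt p.1) p.2) ∧
      (flat M w (p :: c)).getLast? = some (q.1 :: B (M - wt q.1) q.2) := by
  have hblock : ∀ p : Step × X, Val p.1 ∧ wt p.1 ≤ M →
      ((w (M - wt p.1) p.2).map (p.1 :: ·)).IsChain (Nx M) ∧
      ((w (M - wt p.1) p.2).map (p.1 :: ·)).head? = some (p.1 :: A (M - wt p.1) p.2) ∧
      ((w (M - wt p.1) p.2).map (p.1 :: ·)).getLast? = some (p.1 :: B (M - wt p.1) p.2) := by
    intro p ⟨hv, hle⟩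
    have h1 := hv.pos
    obtain ⟨h2, h3, h4⟩ := hw (M - wt p.1) (by omega) p.2
    refine ⟨?_, ?_, ?_⟩
    · rw [List.isChain_map]
      exact h2.imp fun a b hab => Nx.cell hv (by omega) hab
    · rw [List.head?_map, h3]
      rfl
    · rw [List.getLast?_map, h4]
      rfl
  induction c with
  | nil =>
    intro p q _ hval hq
    simp only [List.getLast?_singleton, Option.some.injEq] at hq
    subst hq
    simp only [flat, List.flatMap_cons, List.flatMap_nil, List.append_nil]
    exact hblock p (hval p (List.mem_singleton.2 rfl))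
  | cons p' c ih =>
    intro p q hch hval hq
    rw [List.isChain_cons_cons] at hch
    obtain ⟨h1, h2, h3⟩ := hblock p (hval p (List.mem_cons_self ..))
    obtain ⟨i1, i2, i3⟩ := ih p' q hch.2 (fun o ho => hval o (List.mem_cons_of_mem _ ho))
      (by rwa [List.getLast?_cons_cons] at hq)
    have hfl : flat M w (p :: p' :: c) = (w (M - wt p.1) p.2).map (p.1 :: ·) ++
        flat M w (p' :: c) := by
      simp [flat]
    rw [hfl]
    obtain ⟨v1, -⟩ := hval p (List.mem_cons_self ..)
    have hp2 := (hval p (List.mem_cons_self ..)).2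
    have hp2' := (hval p' (by simp)).2
    refine ⟨?_, ?_, ?_⟩
    · rw [List.isChain_append]
      refine ⟨h1, i1, ?_⟩
      rw [h3, i2]
      intro a ha b hb
      simp only [Option.mem_def, Option.some.injEq] at ha hb
      subst ha hb
      exact Nx.port hch.1 (by omega) (by omega)
    · rw [List.head?_append, h2]
      rfl
    · rw [List.getLast?_append, i3]
      rfl

theorem exists_walk (m : ℕ) : ∀ x : X, ∃ l : List V, l.IsChain (Nx m) ∧ l.head? = some (A m x) ∧
    l.getLast? = some (B m x) ∧ ∀ v, v ∈ l ↔ InG m x v := by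
  induction m using Nat.strong_induction_on with
  | _ m ih =>
    cases m with
    | zero =>
      intro x
      refine ⟨[[]], List.isChain_singleton _, rfl, rfl, fun v => ?_⟩
      rw [List.mem_singleton]
      constructor
      · rintro rfl
        exact InG.nil _
      · intro h
        exact h.mem.zero
    | succ m =>
      choose! w hw using ih
      intro x
      obtain ⟨c, hc⟩ : ∃ c, cells m x = (R (pre 1 x) 0, sh 1 x) :: c := by
        have h1 : (cells m x).head? = some (R (pre 1 x) 0, sh 1 x) := by
          rw [cells, List.head?_append]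
          have h2 : ∀ j, (RL x (j + 1)).head? = some (R (pre 1 x) 0, sh 1 x) := by
            intro j
            induction j with
            | zero => rw [RL, List.head?_append, head_G]; rfl
            | succ j ih => rw [RL, List.head?_append, ih]; rfl
          rw [h2]
          rfl
        cases hcells : cells m x with
        | nil => rw [hcells] at h1; simp at h1
        | cons a c =>
          rw [hcells] at h1
          simp only [List.head?_cons, Option.some.injEq] at h1
          exact ⟨c, by rw [h1]⟩
      have hlast : (cells m x).getLast? = some (T 2 (x 0), tl x) := by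
        rw [cells, List.getLast?_append]
        rfl
      have hch := chain_cells m x
      have hval : ∀ o ∈ cells m x, Val o.1 ∧ wt o.1 ≤ m + 1 := fun o ho => by
        obtain ⟨h1, h2, -⟩ := (mem_cells m x o.1 o.2).1 ho
        exact ⟨h1, h2⟩
      rw [hc] at hch hval hlast
      obtain ⟨s1, s2, s3⟩ := flat_spec (M := m + 1) (w := w)
        (fun r hr y => ⟨(hw r hr y).1, (hw r hr y).2.1, (hw r hr y).2.2.1⟩) c _ _ hch hval hlast
      refine ⟨_, s1, ?_, ?_, ?_⟩
      · rw [s2]
        simp only [wt, length_pre, Nat.add_sub_cancel]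
        rfl
      · rw [s3]
        simp only [wt, Nat.add_sub_cancel]
        rfl
      · intro v
        rw [← hc]
        simp only [flat, List.mem_flatMap, List.mem_map]
        constructor
        · rintro ⟨⟨st, y⟩, hp, v', hv', rfl⟩
          obtain ⟨h1, h2, h3⟩ := (mem_cells m x st y).1 hp
          have h4 := h1.pos
          simp only at hv'
          rw [(hw (m + 1 - wt st) (by omega) y).2.2.2] at hv'
          rw [← h3]
          exact InG.cons h1 (by omega) hv'
        · intro h
          cases h with
          | @cons _ r st y v hv hr h =>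
            have h4 := hv.pos
            refine ⟨(st, y), (mem_cells m _ st y).2 ⟨hv, by omega, rfl⟩, v, ?_, rfl⟩
            simp only
            rw [(hw (m + 1 - wt st) (by omega) y).2.2.2]
            have : m + 1 - wt st = r := by omega
            rwa [this]

end Pool.Agent.K7.H82.SU
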